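import Pool.Agent.Helper5.WS.Cat
import Pool.Agent.Z125.UN.Bnd

/-!
# Affine schemes: polynomial rings, pieces
-/

set_option autoImplicit false

open CategoryTheory CategoryTheory.Limits AlgebraicGeometry MvPolynomial
open Pool.Agent.Y116.UV Pool.Agent.Z125.UN

namespace Pool.Agent.Helper5.WS

universe v u

variable {R : Type} [CommRing R] {C : Type u} [Category.{v} C] [Abelian C] {D : CompactThy R C}
  (hD : IsCompactThy D)

include hD

lemma h_alg {A B : Type} [CommRing A] [CommRing B] [Algebra R A] [Algebra R B]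
    [Algebra.FiniteType R A] (e : A ≃ₐ[R] B) (n : ℤ) :
    Nonempty (D.H n (aff R A) ≅ D.H n (aff R B)) :=
  hD.iso (ft_aff True) ⟨(affIso e).symm⟩ n

section poly

variable {A : Type} [CommRing A] [Algebra R A] [Algebra.FiniteType R A]

/-- The cohomology of `X × 𝔸^k`. -/
lemma h_poly (k : ℕ) (n : ℤ) : Nonempty (D.H (n + 2 * k) (aff R (MvPolynomial (Fin k) A)) ≅
    (tw D.T k).obj (D.H n (aff R A))) := by
  have h1 : IsOpenImmersion (𝟙 (aff R A) : aff R A ⟶ aff R A).left :=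
    inferInstanceAs (IsOpenImmersion (𝟙 (aff R A).left))
  have h2 : Set.range (𝟙 (aff R A) : aff R A ⟶ aff R A).left =
      {x : PrimeSpectrum A | ∃ l, f1 A k l ∉ x.asIdeal} := by
    have h1 : Set.range (𝟙 (aff R A) : aff R A ⟶ aff R A).left = Set.univ := Set.range_id
    have h2 : {x : PrimeSpectrum A | ∃ l, f1 A k l ∉ x.asIdeal} = Set.univ := by
      rw [Set.eq_univ_iff_forall]
      intro x
      exact ⟨0, fun h => x.isPrime.ne_top ((Ideal.eq_top_iff_one _).mpr h)⟩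
    exact h1.trans h2.symm
  obtain ⟨e⟩ := hD.bundle A k (f1 A k) (aff R A) (𝟙 _) h1 h2 n
  have : Algebra.FiniteType R (Jou (f1 A k)) :=
    Algebra.FiniteType.trans (S := A) inferInstance inferInstance
  obtain ⟨e'⟩ := h_alg hD ((jouOne A k).restrictScalars R) (n + 2 * k)
  exact ⟨e'.symm ≪≫ e⟩

lemma ge_poly (hW : IsWt D) (k : ℕ) {w : ℤ} (h : ∀ n, D.Ge w (D.H n (aff R A))) (n : ℤ) :
    D.Ge (w + 2 * k) (D.H n (aff R (MvPolynomial (Fin k) A))) := by
  obtain ⟨e⟩ := h_poly hD (A := A) k (n - 2 * k)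
  rw [sub_add_cancel] at e
  exact ge_iso hW ⟨e.symm⟩ (tw_add hW (h _))

lemma ge_alg (hW : IsWt D) {B : Type} [CommRing B] [Algebra R B] (e : A ≃ₐ[R] B) {w : ℤ}
    (h : ∀ n, D.Ge w (D.H n (aff R A))) (n : ℤ) : D.Ge w (D.H n (aff R B)) :=
  ge_iso hW (h_alg hD e n) (h n)

end poly

section piece

variable {σ κ : Type} [Finite σ] {G : κ → MvPolynomial σ R} {w e : MvPolynomial σ R}

/-- The weights of a piece. -/
lemma ge_pc (hW : IsWt D) {v : ℤ} (hc : ∀ n, D.Ge v (D.H n (aff R (Pc (adj G e) w))))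
    (ho : ∀ n, D.Ge v (D.H n (aff R (Pc G (w * e))))) (n : ℤ) :
    D.Ge v (D.H n (aff R (Pc G w))) :=
  ge_total hD hW _ _ (ft_aff True) (triple_away (pc G w e))
    (ge_alg hD hW (cloE G w e).symm hc) (ge_alg hD hW (opnE G w e).symm ho) n

/-- The weights of a piece times an affine space. -/
lemma ge_pc_poly (hW : IsWt D) (k : ℕ) (n : ℤ) :
    D.Ge (2 * k) (D.H n (aff R (Pc (rl G (Fin k)) (rename Sum.inl w)))) := by
  have : Algebra.FiniteType R (MvPolynomial (Fin k) (Pc G w)) :=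
    Algebra.FiniteType.trans (S := Pc G w) inferInstance inferInstance
  have h := ge_poly hD hW (A := Pc G w) k (hD.ge_zero _ (ft_aff True))
  rw [zero_add] at h
  exact ge_alg hD hW (polyE G w (Fin k)) h n

/-- The open part of a piece. -/
lemma mono_pc (hW : IsWt D) {u v : ℤ} (huv : u < v)
    (hc : ∀ n, D.Ge v (D.H n (aff R (Pc (adj G e) w))))
    (ho : ∀ n, D.Le u (D.H n (aff R (Pc G (w * e))))) (n : ℤ) :
    ∃ f : D.H n (aff R (Pc G (w * e))) ⟶ D.H n (aff R (Pc G w)), Mono f := by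
  have h1 : ∀ n, D.Le u (D.H n (aff R (Localization.Away (pc G w e)))) := by
    intro n
    obtain ⟨e1⟩ := h_alg hD (opnE G w e).symm n
    exact hW.le_sub e1.inv inferInstance u (ho n)
  obtain ⟨f, hf⟩ := mono_open hD hW _ _ (ft_aff True) (triple_away (pc G w e)) huv h1
    (ge_alg hD hW (cloE G w e).symm hc) n
  obtain ⟨e1⟩ := h_alg hD (opnE G w e).symm n
  exact ⟨e1.hom ≫ f, mono_comp _ _⟩

end piece

end Pool.Agent.Helper5.WS
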