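import Pool.Agent.Helper5.WS.Defs

/-!
# Exact sequences and weights
-/

set_option autoImplicit false

open CategoryTheory CategoryTheory.Limits AlgebraicGeometry Pool.Agent.Y116.UV
open scoped ZeroObject

namespace Pool.Agent.Helper5.WS

universe v u

section tw

variable {C : Type u} [Category.{v} C] {T : C ⥤ C}

lemma tw_mono (hT : ∀ {A B : C} (f : A ⟶ B), Mono f → Mono (T.map f)) (n : ℕ) :
    ∀ {A B : C} (f : A ⟶ B), Mono f → Mono ((tw T n).map f) := by
  induction n with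
  | zero => intro A B f hf; exact hf
  | succ n ih => intro A B f hf; exact ih _ (hT f hf)

lemma tw_zero (hT : ∀ A : C, IsZero A → IsZero (T.obj A)) (n : ℕ) :
    ∀ A : C, IsZero A → IsZero ((tw T n).obj A) := by
  induction n with
  | zero => intro A h; exact h
  | succ n ih => intro A h; exact ih _ (hT A h)

end tw

variable {R : Type} [CommRing R] {C : Type u} [Category.{v} C] [Abelian C]

lemma mono_of_exact {A B E : C} {f : A ⟶ B} {g : B ⟶ E} (h : ExactAt f g) (hf : f = 0) : Mono g := by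
  obtain ⟨h0, hE⟩ := h
  exact hE.mono_g hf

lemma exact_of_isZero {A B E : C} (f : A ⟶ B) (g : B ⟶ E) (hB : IsZero B) : ExactAt f g :=
  ⟨by rw [hB.eq_of_tgt f 0, zero_comp], ShortComplex.exact_of_isZero_X₂ _ hB⟩

lemma exact_of_epi {A B E : C} (f : A ⟶ B) [hf : Epi f] : ExactAt f (0 : B ⟶ E) :=
  ⟨comp_zero, ((ShortComplex.mk f (0 : B ⟶ E) comp_zero).exact_iff_epi rfl).mpr hf⟩

variable {D : CompactThy R C}

section wt

variable (hW : IsWt D)

include hW

lemma tw_add {n : ℕ} {A : C} {w : ℤ} (h : D.Ge w A) : D.Ge (w + 2 * n) ((tw D.T n).obj A) := by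
  induction n generalizing A w with
  | zero =>
    have h2 : w + 2 * ((0 : ℕ) : ℤ) = w := by simp
    rw [h2]
    exact h
  | succ n ih =>
    have h1 := ih (hW.ge_twist A w h)
    have h2 : w + 2 + 2 * (n : ℤ) = w + 2 * ((n + 1 : ℕ) : ℤ) := by push_cast; ring
    rw [h2] at h1
    exact h1

lemma ge_of_isZero {A Z : C} (hZ : IsZero Z) {w : ℤ} (hA : D.Ge w A) : D.Ge w Z :=
  hW.ge_mid (0 : A ⟶ Z) (0 : Z ⟶ A) (exact_of_isZero _ _ hZ) w hA hA

lemma ge_quot {A B : C} (p : A ⟶ B) [Epi p] {w : ℤ} (hA : D.Ge w A) : D.Ge w B :=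
  hW.ge_mid p (0 : B ⟶ 0) (exact_of_epi p) w hA (ge_of_isZero hW (isZero_zero C) hA)

lemma ge_iso {A B : C} (e : Nonempty (A ≅ B)) {w : ℤ} (hA : D.Ge w A) : D.Ge w B := by
  obtain ⟨e⟩ := e
  exact ge_quot hW e.hom hA

lemma zero_of_wt {A B : C} (f : A ⟶ B) {w w' : ℤ} (h : w < w') (hA : D.Ge w' A) (hB : D.Le w B) :
    f = 0 := by
  have h1 : IsZero (Abelian.image f) :=
    hW.disjoint _ w w' h (hW.le_sub (Abelian.image.ι f) inferInstance w hB)
      (ge_quot hW (Abelian.factorThruImage f) hA)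
  rw [← Abelian.image.fac f, h1.eq_of_tgt (Abelian.factorThruImage f) 0, zero_comp]

end wt

section les

variable (hD : IsCompactThy D)

include hD

/-- A closed subscheme with cohomology of high weight does not change the cohomology of low
weight. -/
lemma mono_open (hW : IsWt D) {Z X U : Sch R} (i : Z ⟶ X) (j : U ⟶ X) (hX : FT True X)
    (ht : IsTriple i j) {w w' : ℤ} (hw : w < w') (hU : ∀ n, D.Le w (D.H n U))
    (hZ : ∀ n, D.Ge w' (D.H n Z)) (n : ℤ) : ∃ f : D.H n U ⟶ D.H n X, Mono f := by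
  obtain ⟨a, b, d, -, -, h3⟩ := hD.les i j hX ht
  have h := mono_of_exact (h3 (n - 1)) (zero_of_wt hW (d (n - 1)) hw (hZ _) (hU _))
  rw [sub_add_cancel] at h
  exact ⟨_, h⟩

/-- If the cohomology of `X` vanishes then the one of `Z` is contained in the one of the complement. -/
lemma mono_closed {Z X U : Sch R} (i : Z ⟶ X) (j : U ⟶ X) (hX : FT True X)
    (ht : IsTriple i j) (n : ℤ) (h0 : IsZero (D.H n X)) :
    ∃ f : D.H n Z ⟶ D.H (n + 1) U, Mono f := by
  obtain ⟨a, b, d, -, h2, -⟩ := hD.les i j hX ht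
  exact ⟨d n, mono_of_exact (h2 n) (h0.eq_of_src _ _)⟩

lemma ge_total (hW : IsWt D) {Z X U : Sch R} (i : Z ⟶ X) (j : U ⟶ X) (hX : FT True X)
    (ht : IsTriple i j) {w : ℤ} (hZ : ∀ n, D.Ge w (D.H n Z)) (hU : ∀ n, D.Ge w (D.H n U)) (n : ℤ) :
    D.Ge w (D.H n X) := by
  obtain ⟨a, b, d, h1, -, -⟩ := hD.les i j hX ht
  exact hW.ge_mid _ _ (h1 n) w (hU n) (hZ n)

end les

end Pool.Agent.Helper5.WS
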