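import Pool.Agent.Y116.UV.Defs

/-!
# Cohomology with compact support and weights, axiomatically: definitions
-/

set_option autoImplicit false

open CategoryTheory CategoryTheory.Limits AlgebraicGeometry Pool.Agent.Y116.UV

namespace Pool.Agent.Helper5.WS

universe v u

/-- Objects `H i X` of the category `C` (in the applications: the cohomology with compact support
`H^i_c(X)`) for all schemes `X` over the ring `R`, the Tate twist `T`, `T M = M(-1)`, and the classes
`Le w`, `Ge w` of the objects all of whose weights are `≤ w`, respectively `≥ w`. -/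
structure CompactThy (R : Type) [CommRing R] (C : Type u) [Category.{v} C] where
  H : ℤ → Sch R → C
  T : C ⥤ C
  Le : ℤ → C → Prop
  Ge : ℤ → C → Prop

/-- The sequence `A ⟶ B ⟶ E` is exact at `B`. -/
def ExactAt {C : Type u} [Category.{v} C] [Abelian C] {A B E : C} (f : A ⟶ B) (g : B ⟶ E) : Prop :=
  ∃ h : f ≫ g = 0, (ShortComplex.mk f g h).Exact

/-- The `n`-fold Tate twist, `M ↦ M(-n)`. -/
def tw {C : Type u} [Category.{v} C] (T : C ⥤ C) : ℕ → C ⥤ C
  | 0 => 𝟭 C
  | n + 1 => T ⋙ tw T n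

variable {R : Type} [CommRing R] {C : Type u} [Category.{v} C] [Abelian C]

/-- The properties of weights and of the Tate twist.
* `mono`, `zero`: the Tate twist respects monomorphisms and zero objects;
* `le_sub`: subobjects of objects with weights `≤ w`;
* `ge_mid`: the middle term of an exact sequence has weights `≥ w` if the outer terms have;
* `ge_twist`: the twist of an object with weights `≥ w` has weights `≥ w + 2`;
* `disjoint`: an object with weights `≤ w` and `≥ w' > w` is zero. -/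
structure IsWt (D : CompactThy R C) : Prop where
  mono : ∀ {A B : C} (f : A ⟶ B), Mono f → Mono (D.T.map f)
  zero : ∀ A : C, IsZero A → IsZero (D.T.obj A)
  le_sub : ∀ {A B : C} (f : A ⟶ B), Mono f → ∀ w, D.Le w B → D.Le w A
  ge_mid : ∀ {A B E : C} (f : A ⟶ B) (g : B ⟶ E), ExactAt f g → ∀ w, D.Ge w A → D.Ge w E →
    D.Ge w B
  ge_twist : ∀ (A : C) (w : ℤ), D.Ge w A → D.Ge (w + 2) (D.T.obj A)
  disjoint : ∀ (A : C) (w w' : ℤ), w < w' → D.Le w A → D.Ge w' A → IsZero A

/-- The standard properties of the cohomology with compact support.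
* `iso`: isomorphic schemes;
* `les`: for a closed subscheme `Z` of `X` with complement `U` there is a long exact sequence
  `⋯ → H^n_c(U) → H^n_c(X) → H^n_c(Z) → H^{n+1}_c(U) → ⋯`;
* `bundle`: for the affine bundle `Spec A[w_0, …, w_m] / (∑ f_l w_l - 1) → U` of dimension `m`, `U` the
  complement of `f = 0` in `Spec A`, `H^{i+2m}_c` of the total space is `H^i_c(U)(-m)`;
* `torus`: `H^i_c(X)` is a direct summand of `H^{i+1}_c(X × 𝔾_m)`, for affine `X`;
* `clopen`: the cohomology of an open and closed subscheme is a direct summand;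
* `point`: `H^i_c` of `Spec R` vanishes for `i ≠ 0`;
* `ge_zero`: the weights are not negative;
* `bounded`: for every `X` the weights and the degrees of the cohomology are bounded above. -/
structure IsCompactThy (D : CompactThy R C) : Prop where
  iso : ∀ {X Y : Sch R}, FT True X → Nonempty (X ≅ Y) → ∀ i, Nonempty (D.H i X ≅ D.H i Y)
  les : ∀ {Z X U : Sch R} (i : Z ⟶ X) (j : U ⟶ X), FT True X → IsTriple i j →
    ∃ (a : ∀ n, D.H n U ⟶ D.H n X) (b : ∀ n, D.H n X ⟶ D.H n Z)
      (d : ∀ n, D.H n Z ⟶ D.H (n + 1) U),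
      (∀ n, ExactAt (a n) (b n)) ∧ (∀ n, ExactAt (b n) (d n)) ∧ ∀ n, ExactAt (d n) (a (n + 1))
  bundle : ∀ (A : Type) [CommRing A] [Algebra R A] [Algebra.FiniteType R A] (m : ℕ)
    (f : Fin (m + 1) → A) (U : Sch R) (j : U ⟶ aff R A), IsOpenImmersion j.left →
    Set.range j.left = {x : PrimeSpectrum A | ∃ l, f l ∉ x.asIdeal} → ∀ i : ℤ,
    Nonempty (D.H (i + 2 * m) (aff R (Jou f)) ≅ (tw D.T m).obj (D.H i U))
  torus : ∀ (A : Type) [CommRing A] [Algebra R A] [Algebra.FiniteType R A] (i : ℤ),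
    ∃ (s : D.H i (aff R A) ⟶ D.H (i + 1) (aff R (LaurentPolynomial A)))
      (r : D.H (i + 1) (aff R (LaurentPolynomial A)) ⟶ D.H i (aff R A)), s ≫ r = 𝟙 _
  clopen : ∀ {Z X : Sch R} (i : Z ⟶ X), FT True X → IsClosedImmersion i.left →
    IsOpenImmersion i.left → ∀ n, ∃ (s : D.H n Z ⟶ D.H n X) (r : D.H n X ⟶ D.H n Z), s ≫ r = 𝟙 _
  point : ∀ i : ℤ, i ≠ 0 → IsZero (D.H i (aff R R))
  ge_zero : ∀ X : Sch R, FT True X → ∀ i, D.Ge 0 (D.H i X)
  bounded : ∀ X : Sch R, FT True X → ∃ N : ℤ, ∀ i, D.Le N (D.H i X) ∧ (N < i → IsZero (D.H i X))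

end Pool.Agent.Helper5.WS
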