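import Pool.Agent.Y116.UV.Main

/-!
# Schemes over an algebraic extension of the prime field and equations with coefficients 0, 1

Let `k` be a separable algebraic extension of a field `F` over which all algebras of finite type have
presentations with the coefficients `0` and `1`. Then every affine scheme of finite type over `k` is an
open and closed subscheme of an affine scheme over `k` which has such a presentation: take the
coefficients of the equations as new variables, subject to their minimal equations over `F`.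
-/

set_option autoImplicit false

open MvPolynomial Pool.Agent.Y116.UV

namespace Pool.Agent.Helper5.WS

section sys

variable (F : Type) {k : Type} [Field F] [Field k] [Algebra F k] {n : ℕ}
  (G : Finset (MvPolynomial (Fin n) k)) (Γ : Finset k)

open Classical in
/-- the variable for the coefficient `c` -/
noncomputable def tv (n : ℕ) (c : k) : MvPolynomial (Fin n ⊕ Γ) F :=
  if h : c ∈ Γ then X (Sum.inr ⟨c, h⟩) else 0

/-- the polynomial with the coefficients replaced by variables -/
noncomputable def gt (g : MvPolynomial (Fin n) k) : MvPolynomial (Fin n ⊕ Γ) F :=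
  ∑ m ∈ g.support, rename Sum.inl (monomial m 1) * tv F Γ n (coeff m g)

/-- the minimal equation of the coefficient `c` -/
noncomputable def ptc (n : ℕ) (c : Γ) : MvPolynomial (Fin n ⊕ Γ) F :=
  Polynomial.aeval (X (Sum.inr c)) (minpoly F c.1)

/-- the system over `F` -/
noncomputable def sysF : G ⊕ Γ → MvPolynomial (Fin n ⊕ Γ) F :=
  Sum.elim (fun g => gt F Γ g.1) (ptc F Γ n)

variable {Q : Type} [CommRing Q] [Algebra k Q] [Algebra F Q] [IsScalarTower F k Q]
  (v : Fin n ⊕ Γ → Q) (hv : ∀ c : Γ, v (Sum.inr c) = algebraMap k Q c.1)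

include hv

omit [Algebra F k] [IsScalarTower F k Q] in
lemma aeval_gt (g : MvPolynomial (Fin n) k) (hg : ∀ m ∈ g.support, coeff m g ∈ Γ) :
    aeval v (gt F Γ g) = aeval (fun i => v (Sum.inl i)) g := by
  classical
  rw [gt, map_sum]
  conv_rhs => rw [g.as_sum, map_sum]
  apply Finset.sum_congr rfl
  intro m hm
  rw [map_mul, tv, dif_pos (hg m hm), aeval_X, hv, aeval_rename, aeval_monomial, aeval_monomial,
    map_one, one_mul, mul_comm]
  rfl

lemma aeval_ptc (c : Γ) : aeval v (ptc F Γ n c) = 0 := by
  rw [ptc, ← Polynomial.aeval_algHom_apply, aeval_X, hv, Polynomial.aeval_algebraMap_apply,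
    minpoly.aeval, map_zero]

lemma aeval_sysF (hΓ : ∀ g ∈ G, ∀ m ∈ g.support, coeff m g ∈ Γ)
    (h0 : ∀ g ∈ G, aeval (fun i => v (Sum.inl i)) g = 0) (r : G ⊕ Γ) :
    aeval v (sysF F G Γ r) = 0 := by
  rcases r with g | c
  · exact (aeval_gt F Γ v hv g.1 (hΓ g.1 g.2)).trans (h0 g.1 g.2)
  · exact aeval_ptc F Γ v hv c

end sys

section idem

/-- An element which is killed by a separable polynomial with the root `c`. -/
lemma exists_proj {k : Type} [Field k] {B : Type} [CommRing B] [Algebra k B] (p : Polynomial k)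
    (hp : p.Separable) (c : k) (hc : p.IsRoot c) (β : B) (hβ : Polynomial.aeval β p = 0) :
    ∃ e : B, e * (β - algebraMap k B c) = 0 ∧ 1 - e ∈ Ideal.span {β - algebraMap k B c} := by
  obtain ⟨r, hr⟩ : ∃ r, (Polynomial.X - Polynomial.C c) * r = p :=
    ⟨_, Polynomial.mul_divByMonic_eq_iff_isRoot.mpr hc⟩
  have hrc : r.eval c ≠ 0 := by
    intro h0
    obtain ⟨a, b, hab⟩ := hp
    have h1 := congrArg (Polynomial.eval c) hab
    rw [← hr, Polynomial.derivative_mul] at h1
    simp [h0] at h1
  refine ⟨algebraMap k B (r.eval c)⁻¹ * Polynomial.aeval β r, ?_, ?_⟩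
  · have h1 : Polynomial.aeval β p = (β - algebraMap k B c) * Polynomial.aeval β r := by
      rw [← hr, map_mul, map_sub, Polynomial.aeval_X, Polynomial.aeval_C]
    rw [hβ] at h1
    rw [mul_assoc, mul_comm (Polynomial.aeval β r), ← h1, mul_zero]
  · rw [Ideal.mem_span_singleton]
    have h1 := Polynomial.sub_dvd_eval_sub β (algebraMap k B c) (r.map (algebraMap k B))
    have h2 : (r.map (algebraMap k B)).eval β = Polynomial.aeval β r := by
      rw [Polynomial.eval_map, Polynomial.aeval_def]
    have h3 : (r.map (algebraMap k B)).eval (algebraMap k B c) = algebraMap k B (r.eval c) := by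
      rw [Polynomial.eval_map, Polynomial.eval₂_at_apply]
    rw [h2, h3] at h1
    have h4 : 1 - algebraMap k B (r.eval c)⁻¹ * Polynomial.aeval β r =
        -(algebraMap k B (r.eval c)⁻¹) * (Polynomial.aeval β r - algebraMap k B (r.eval c)) := by
      have h5 : algebraMap k B (r.eval c)⁻¹ * algebraMap k B (r.eval c) = 1 := by
        rw [← map_mul, inv_mul_cancel₀ hrc, map_one]
      linear_combination -h5
    rw [h4]
    exact h1.mul_left _

/-- The ideal of finitely many elements which are killed by separable polynomials. -/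
lemma exists_idem {k : Type} [Field k] {B : Type} [CommRing B] [Algebra k B] {ι : Type} [Fintype ι]
    (p : ι → Polynomial k) (hp : ∀ i, (p i).Separable) (c : ι → k) (hc : ∀ i, (p i).IsRoot (c i))
    (β : ι → B) (hβ : ∀ i, Polynomial.aeval (β i) (p i) = 0) :
    ∃ e : B, IsIdempotentElem e ∧
      Ideal.span (Set.range fun i => β i - algebraMap k B (c i)) = Ideal.span {e} := by
  classical
  choose E h1 h2 using fun i => exists_proj (p i) (hp i) (c i) (hc i) (β i) (hβ i)
  let J := Ideal.span (Set.range fun i => β i - algebraMap k B (c i))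
  let e := ∏ i, E i
  have he : ∀ i, e * (β i - algebraMap k B (c i)) = 0 := by
    intro i
    have h3 : E i ∣ e := Finset.dvd_prod_of_mem E (Finset.mem_univ i)
    obtain ⟨d, hd⟩ := h3
    rw [hd, mul_comm (E i), mul_assoc, h1, mul_zero]
  have heJ : ∀ x ∈ J, e * x = 0 := by
    intro x hx
    have h3 : J ≤ LinearMap.ker (LinearMap.mulLeft B e) := by
      refine Ideal.span_le.mpr ?_
      rintro _ ⟨i, rfl⟩
      exact he i
    exact h3 hx
  have hJ : 1 - e ∈ J := by
    rw [← Ideal.Quotient.eq_zero_iff_mem, map_sub, map_one, map_prod]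
    have h3 : ∀ i, Ideal.Quotient.mk J (E i) = 1 := by
      intro i
      have h4 : 1 - E i ∈ J := Ideal.span_mono
        (Set.singleton_subset_iff.mpr (Set.mem_range_self i)) (h2 i)
      rw [← Ideal.Quotient.eq_zero_iff_mem, map_sub, map_one, sub_eq_zero] at h4
      exact h4.symm
    rw [Finset.prod_congr rfl fun i _ => h3 i, Finset.prod_const_one, sub_self]
  refine ⟨1 - e, ?_, ?_⟩
  · have h5 := heJ _ hJ
    change (1 - e) * (1 - e) = 1 - e
    linear_combination -h5
  · apply le_antisymm
    · intro x hx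
      rw [Ideal.mem_span_singleton]
      exact ⟨x, by have := heJ x hx; linear_combination this⟩
    · rw [Ideal.span_singleton_le_iff_mem]
      exact hJ

end idem

section main

variable {F k : Type} [Field F] [Field k] [Algebra F k] [Algebra.IsSeparable F k]

/-- **Descent of the coefficients.** -/
theorem exists_clopen (hF : Presents ({0, 1} : Set F)) (A : Type) [CommRing A] [Algebra k A]
    [Algebra.FiniteType k A] :
    ∃ (N : ℕ) (G : Finset (MvPolynomial (Fin N) k)),
      (∀ g ∈ G, ∀ m, coeff m g ∈ ({0, 1} : Set k)) ∧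
      ∃ ψ : (MvPolynomial (Fin N) k ⧸ Ideal.span (G : Set (MvPolynomial (Fin N) k))) →ₐ[k] A,
        Function.Surjective ψ ∧ ∃ e, IsIdempotentElem e ∧ RingHom.ker ψ = Ideal.span {e} := by
  classical
  obtain ⟨n, π, G, hπ, hK, -⟩ := presents_univ (R := k) A
  let Γ : Finset k := G.biUnion fun g => g.support.image fun m => coeff m g
  have hΓ : ∀ g ∈ G, ∀ m ∈ g.support, coeff m g ∈ Γ := by
    intro g hg m hm
    exact Finset.mem_biUnion.mpr ⟨g, hg, Finset.mem_image.mpr ⟨m, hm, rfl⟩⟩
  let BF := MvPolynomial (Fin n ⊕ Γ) F ⧸ Ideal.span (Set.range (sysF F G Γ))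
  obtain ⟨N, φ, G0, hφ, hK0, hc0⟩ := hF BF
  choose b hb using fun s : Fin n ⊕ Γ =>
    hφ (Ideal.Quotient.mk (Ideal.span (Set.range (sysF F G Γ))) (X s))
  let mp : MvPolynomial (Fin N) F →ₐ[F] MvPolynomial (Fin N) k := mapAlgHom (Algebra.ofId F k)
  have hφb : ∀ r : MvPolynomial (Fin n ⊕ Γ) F, φ (aeval b r) =
      Ideal.Quotient.mk (Ideal.span (Set.range (sysF F G Γ))) r := by
    intro r
    have h : φ.comp (aeval b) =
        Ideal.Quotient.mkₐ F (Ideal.span (Set.range (sysF F G Γ))) := by
      apply MvPolynomial.algHom_ext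
      intro s
      rw [AlgHom.comp_apply, aeval_X]
      exact hb s
    exact congrArg (fun f : MvPolynomial (Fin n ⊕ Γ) F →ₐ[F] BF => f r) h
  let Gk : Finset (MvPolynomial (Fin N) k) := G0.image mp
  let I : Ideal (MvPolynomial (Fin N) k) := Ideal.span (Gk : Set (MvPolynomial (Fin N) k))
  let B := MvPolynomial (Fin N) k ⧸ I
  have hmp : ∀ p, φ p = 0 → mp p ∈ I := by
    intro p hp
    have h1 : p ∈ Ideal.span (G0 : Set (MvPolynomial (Fin N) F)) := by
      rw [← hK0]
      exact hp
    have h2 : Ideal.span (G0 : Set (MvPolynomial (Fin N) F)) ≤ I.comap mp := by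
      rw [Ideal.span_le]
      intro g hg
      exact Ideal.subset_span (Finset.mem_coe.mpr (Finset.mem_image_of_mem _ hg))
    exact h2 h1
  -- the structures over `F`
  let _ : Algebra F A := Algebra.compHom A (algebraMap F k)
  have _ : IsScalarTower F k A := IsScalarTower.of_algebraMap_eq fun _ => rfl
  -- the point of the variety of the system
  let vA : Fin n ⊕ Γ → A := Sum.elim (fun i => π (X i)) (fun c => algebraMap k A c.1)
  have hvA : ∀ r, aeval vA (sysF F G Γ r) = 0 := by
    apply aeval_sysF F G Γ vA (fun c => rfl) hΓ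
    intro g hg
    have h1 : aeval (fun i => vA (Sum.inl i)) g = π g := by
      have h : aeval (fun i => vA (Sum.inl i)) = π := by
        apply MvPolynomial.algHom_ext
        intro i
        rw [aeval_X]
        rfl
      rw [h]
    rw [h1]
    have h2 : g ∈ RingHom.ker π := by
      rw [hK]
      exact Ideal.subset_span hg
    exact h2
  let χ : BF →ₐ[F] A := Ideal.Quotient.liftₐ (Ideal.span (Set.range (sysF F G Γ))) (aeval vA) (by
    intro a ha
    have h : Ideal.span (Set.range (sysF F G Γ)) ≤
        RingHom.ker (aeval vA : MvPolynomial (Fin n ⊕ Γ) F →ₐ[F] A) := by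
      rw [Ideal.span_le]
      rintro _ ⟨r, rfl⟩
      exact hvA r
    exact h ha)
  have hχ : ∀ r, χ (Ideal.Quotient.mk (Ideal.span (Set.range (sysF F G Γ))) r) = aeval vA r :=
    fun r => rfl
  let ψ0 : MvPolynomial (Fin N) k →ₐ[k] A := aeval fun j => χ (φ (X j))
  have hψ0 : ∀ p, ψ0 (mp p) = χ (φ p) := by
    intro p
    have h : (ψ0.restrictScalars F).comp mp = χ.comp φ := by
      apply MvPolynomial.algHom_ext
      intro j
      change ψ0 (mp (X j)) = χ (φ (X j))
      have h1 : mp (X j) = X j := map_X _ _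
      rw [h1]
      exact aeval_X _ _
    exact congrArg (fun f : MvPolynomial (Fin N) F →ₐ[F] A => f p) h
  let ψ : B →ₐ[k] A := Ideal.Quotient.liftₐ I ψ0 (by
    intro a ha
    have h : I ≤ RingHom.ker ψ0 := by
      rw [Ideal.span_le]
      intro g hg
      obtain ⟨g0, hg0, rfl⟩ := Finset.mem_image.mp (Finset.mem_coe.mp hg)
      change ψ0 (mp g0) = 0
      have h1 : g0 ∈ RingHom.ker φ := by
        rw [hK0]
        exact Ideal.subset_span hg0
      have h2 : φ g0 = 0 := h1
      rw [hψ0, h2, map_zero]
    exact h ha)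
  have hψ : ∀ p, ψ (Ideal.Quotient.mk I p) = ψ0 p := fun p => rfl
  have hbi : ∀ s, ψ0 (mp (b s)) = vA s := by
    intro s
    rw [hψ0, hb, hχ, aeval_X]
  have hsurj : Function.Surjective ψ := by
    intro a
    obtain ⟨p, rfl⟩ := hπ a
    refine ⟨Ideal.Quotient.mk I (aeval (fun i => mp (b (Sum.inl i))) p), ?_⟩
    rw [hψ]
    have h : ψ0.comp (aeval fun i => mp (b (Sum.inl i))) = π := by
      apply MvPolynomial.algHom_ext
      intro i
      rw [AlgHom.comp_apply, aeval_X, hbi]
      rfl
    exact congrArg (fun f : MvPolynomial (Fin n) k →ₐ[k] A => f p) h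
  -- the idempotent
  let β : Γ → B := fun c => Ideal.Quotient.mk I (mp (b (Sum.inr c)))
  let qF : MvPolynomial (Fin N) F →ₐ[F] B := ((Ideal.Quotient.mkₐ k I).restrictScalars F).comp mp
  have hqF : ∀ p, qF p = Ideal.Quotient.mk I (mp p) := fun p => rfl
  have hβ : ∀ c : Γ, Polynomial.aeval (β c) ((minpoly F c.1).map (algebraMap F k)) = 0 := by
    intro c
    rw [Polynomial.aeval_map_algebraMap]
    have h1 : Polynomial.aeval (β c) (minpoly F c.1) = qF (aeval b (ptc F Γ n c)) := by
      rw [ptc, ← Polynomial.aeval_algHom_apply, aeval_X, ← Polynomial.aeval_algHom_apply]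
      rfl
    rw [h1, hqF, Ideal.Quotient.eq_zero_iff_mem]
    apply hmp
    rw [hφb, Ideal.Quotient.eq_zero_iff_mem]
    exact Ideal.subset_span ⟨Sum.inr c, rfl⟩
  obtain ⟨e, he, hJ⟩ := exists_idem (fun c : Γ => (minpoly F c.1).map (algebraMap F k))
    (fun c => (show (minpoly F c.1).Separable from
      Algebra.IsSeparable.isSeparable F c.1).map) (fun c => c.1)
    (fun c => by
      rw [Polynomial.IsRoot, Polynomial.eval_map_algebraMap, minpoly.aeval]) β hβ
  refine ⟨N, Gk, ?_, ψ, hsurj, e, he, ?_⟩
  · intro g hg m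
    obtain ⟨g0, hg0, rfl⟩ := Finset.mem_image.mp hg
    change coeff m (map (algebraMap F k) g0) ∈ _
    rw [coeff_map]
    rcases hc0 g0 hg0 m with h | h
    · left
      rw [h, map_zero]
    · right
      have h2 : coeff m g0 = 1 := h
      rw [h2, map_one]
      rfl
  · rw [← hJ]
    let J : Ideal B := Ideal.span (Set.range fun c : Γ => β c - algebraMap k B c.1)
    have key : ∀ (Q : Type) [CommRing Q] [Algebra k Q] [Algebra F Q] [IsScalarTower F k Q]
        (lam : MvPolynomial (Fin N) k →ₐ[k] Q), (∀ p, φ p = 0 → lam (mp p) = 0) →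
        (∀ c : Γ, lam (mp (b (Sum.inr c))) = algebraMap k Q c.1) → ∀ p, ψ0 p = 0 → lam p = 0 := by
      intro Q _ _ _ _ lam hlam0 hv p hp
      let lamF : MvPolynomial (Fin N) F →ₐ[F] Q := (lam.restrictScalars F).comp mp
      have hlamF : ∀ p, lamF p = lam (mp p) := fun p => rfl
      let v : Fin n ⊕ Γ → Q := fun s => lamF (b s)
      have hvb : ∀ r : MvPolynomial (Fin n ⊕ Γ) F, aeval v r = lamF (aeval b r) := by
        intro r
        have h : lamF.comp (aeval b) = aeval v := by
          apply MvPolynomial.algHom_ext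
          intro s
          rw [AlgHom.comp_apply, aeval_X, aeval_X]
        exact (congrArg (fun f : MvPolynomial (Fin n ⊕ Γ) F →ₐ[F] Q => f r) h).symm
      let κ0 : MvPolynomial (Fin n) k →ₐ[k] Q := aeval fun i => v (Sum.inl i)
      have hκ0 : ∀ g ∈ G, κ0 g = 0 := by
        intro g hg
        have h1 : κ0 g = aeval v (gt F Γ g) := (aeval_gt F Γ v hv g (hΓ g hg)).symm
        rw [h1, hvb]
        apply hlam0
        rw [hφb, Ideal.Quotient.eq_zero_iff_mem]
        exact Ideal.subset_span ⟨Sum.inl ⟨g, hg⟩, rfl⟩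
      let κ : A →ₐ[k] Q := AlgHom.liftOfSurjective π hπ κ0 (by
        change RingHom.ker π ≤ RingHom.ker κ0
        rw [hK, Ideal.span_le]
        intro g hg
        exact hκ0 g hg)
      have hκ : ∀ p, κ (π p) = κ0 p := fun p => AlgHom.liftOfSurjective_apply π hπ κ0 _ p
      have hκv : ∀ s : Fin n ⊕ Γ, κ (vA s) = v s := by
        rintro (i | c)
        · change κ (π (X i)) = _
          rw [hκ]
          exact aeval_X _ _
        · exact (κ.commutes c.1).trans (hv c).symm
      have h : κ.comp ψ0 = lam := by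
        apply MvPolynomial.algHom_ext
        intro j
        obtain ⟨s, hs⟩ := Ideal.Quotient.mk_surjective (φ (X j))
        have h1 : ψ0 (X j) = aeval vA s := by
          rw [← hχ, hs]
          exact aeval_X _ _
        have h2 : κ (aeval vA s) = aeval v s := by
          have h3 : ((κ.restrictScalars F).comp (aeval vA) : MvPolynomial (Fin n ⊕ Γ) F →ₐ[F] Q) =
              aeval v := by
            apply MvPolynomial.algHom_ext
            intro t
            rw [AlgHom.comp_apply, aeval_X, aeval_X]
            exact hκv t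
          exact congrArg (fun f : MvPolynomial (Fin n ⊕ Γ) F →ₐ[F] Q => f s) h3
        rw [AlgHom.comp_apply, h1, h2, hvb]
        have h4 : lamF (aeval b s - X j) = 0 := by
          apply hlam0
          rw [map_sub, hφb, hs, sub_self]
        rw [map_sub, sub_eq_zero] at h4
        rw [h4, hlamF]
        have h5 : mp (X j) = X j := map_X _ _
        rw [h5]
      have h6 : κ (ψ0 p) = lam p :=
        congrArg (fun f : MvPolynomial (Fin N) k →ₐ[k] Q => f p) h
      rw [← h6, hp, map_zero]
    apply le_antisymm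
    · intro x hx
      obtain ⟨p, rfl⟩ := Ideal.Quotient.mk_surjective x
      have h9 := key (B ⧸ J) ((Ideal.Quotient.mkₐ k J).comp (Ideal.Quotient.mkₐ k I))
        (by
          intro p hp
          change Ideal.Quotient.mk J (Ideal.Quotient.mk I (mp p)) = 0
          rw [Ideal.Quotient.eq_zero_iff_mem.mpr (hmp p hp), map_zero])
        (by
          intro c
          have h1 : β c - algebraMap k B c.1 ∈ J := Ideal.subset_span ⟨c, rfl⟩
          rw [← Ideal.Quotient.eq_zero_iff_mem, map_sub, sub_eq_zero] at h1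
          exact h1) p hx
      exact Ideal.Quotient.eq_zero_iff_mem.mp h9
    · rw [Ideal.span_le]
      rintro _ ⟨c, rfl⟩
      change ψ (β c - algebraMap k B c.1) = 0
      rw [map_sub, AlgHom.commutes]
      change ψ0 (mp (b (Sum.inr c))) - _ = 0
      rw [hbi]
      exact sub_self _

end main

end Pool.Agent.Helper5.WS
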