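import Pool.Agent.Helper5.WS.Sys
import Pool.Agent.Y116.UV.Main

/-!
# The cohomology of every affine scheme is contained in the cohomology of a cubic hypersurface
-/

set_option autoImplicit false

open CategoryTheory CategoryTheory.Limits AlgebraicGeometry MvPolynomial
open Pool.Agent.Y116.UV Pool.Agent.Z125.UN

namespace Pool.Agent.Helper5.WS

universe v u

variable {R : Type} [CommRing R]

lemma triple_jou {A : Type} [CommRing A] [Algebra R A] {m : ℕ} (f : Fin m → A) :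
    IsTriple (affMap (Ideal.Quotient.mkₐ R (Ideal.span (Set.range f))))
      (opnMap (aff R A) (neOpen R f)) := by
  refine ⟨closed_affMap _ (Ideal.Quotient.mkₐ_surjective R _), inferInstance, ?_⟩
  rw [range_affMap _ (Ideal.Quotient.mkₐ_surjective R _), range_opnMap]
  ext x
  change (∀ a, Ideal.Quotient.mk (Ideal.span (Set.range f)) a = 0 → a ∈ x.asIdeal) ↔
    ¬ ∃ l, f l ∉ x.asIdeal
  push Not
  constructor
  · intro h l
    exact h (f l) (Ideal.Quotient.eq_zero_iff_mem.mpr (Ideal.subset_span ⟨l, rfl⟩))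
  · intro h a ha
    rw [Ideal.Quotient.eq_zero_iff_mem] at ha
    refine (Ideal.span_le.mpr ?_ : Ideal.span (Set.range f) ≤ x.asIdeal) ha
    rintro _ ⟨l, rfl⟩
    exact h l

variable {C : Type u} [Category.{v} C] [Abelian C] {D : CompactThy R C}
  (hW : IsWt D) (hD : IsCompactThy D)

section space

include hW hD

lemma space_fin (N : ℕ) (n : ℤ) (h : n ≠ 2 * N) : IsZero (D.H n (aff R (MvPolynomial (Fin N) R))) := by
  obtain ⟨e⟩ := h_poly hD (A := R) N (n - 2 * N)
  rw [sub_add_cancel] at e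
  exact (tw_zero hW.zero N _ (hD.point _ (sub_ne_zero.mpr h))).of_iso e

lemma space_zero (σ : Type) [Fintype σ] (n : ℤ) (h : n ≠ 2 * Fintype.card σ) :
    IsZero (D.H n (aff R (MvPolynomial σ R))) := by
  obtain ⟨e⟩ := h_alg hD (renameEquiv R (Fintype.equivFin σ)) n
  exact (space_fin hW hD _ n h).of_iso e

/-- The closed subscheme `F = 0` of the affine space. -/
theorem mono_jou {σ : Type} [Fintype σ] {m : ℕ} (F : Fin (m + 1) → MvPolynomial σ R) (n : ℤ)
    (h : n ≠ 2 * Fintype.card σ) :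
    ∃ g : (tw D.T m).obj (D.H n (aff R (MvPolynomial σ R ⧸ Ideal.span (Set.range F)))) ⟶
      D.H (n + 1 + 2 * m) (aff R (Jou F)), Mono g := by
  obtain ⟨g, hg⟩ := mono_closed hD _ _ (ft_aff True) (triple_jou F) n (space_zero hW hD σ n h)
  obtain ⟨e⟩ := hD.bundle (MvPolynomial σ R) m F (opn (aff R (MvPolynomial σ R)) (neOpen R F))
    (opnMap (aff R (MvPolynomial σ R)) (neOpen R F)) inferInstance (range_opnMap _ _) (n + 1)
  have h1 : Mono ((tw D.T m).map g) := tw_mono hW.mono m g hg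
  exact ⟨(tw D.T m).map g ≫ e.inv, mono_comp _ _⟩

end space

section hyp

include hD

/-- From Jouanolou's ring of a system of bilinear forms to a hypersurface. -/
lemma jou_hyp {S : Set R} {β γ : Type} [Fintype β] [Fintype γ] {m : ℕ}
    (F : Fin (m + 1) → MvPolynomial (β ⊕ γ) R) (hF : ∀ l, F l ∈ bilIn S β γ) :
    ∃ T : Fin (m + 1) → Fin (Fintype.card β) → Fin (Fintype.card γ) → R,
      (∀ l i j, T l i j ∈ S) ∧ ∀ n, Nonempty (D.H n (aff R (Jou F)) ≅ D.H n (hypS T)) := by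
  choose T hTS hT using hF
  have h2 : F = fun i => bil β γ (T i) := by
    funext i
    exact (hT i).symm
  have h3 : Algebra.FiniteType R (Jou F) :=
    Algebra.FiniteType.trans (S := MvPolynomial (β ⊕ γ) R) inferInstance inferInstance
  have e1 : Jou F ≃ₐ[R] Hyp T := by
    rw [h2]
    exact (hypEquiv T).symm
  let T' : Fin (m + 1) → Fin (Fintype.card β) → Fin (Fintype.card γ) → R :=
    fun l i j => T l ((Fintype.equivFin β).symm i) ((Fintype.equivFin γ).symm j)
  have e2 : Hyp T' ≃ₐ[R] Hyp T :=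
    hypRename (Equiv.refl _) (Fintype.equivFin β).symm (Fintype.equivFin γ).symm T
  exact ⟨T', fun l i j => hTS _ _ _, fun n => h_alg hD (e1.trans e2.symm) n⟩

end hyp

section torus

include hD

lemma mono_torus (A : Type) [CommRing A] [Algebra R A] [Algebra.FiniteType R A] (n : ℤ) :
    ∃ s : D.H n (aff R A) ⟶ D.H (n + 2) (aff R (Tor A)), Mono s := by
  have h7 := ft_laurent (R := R) A
  obtain ⟨s1, r1, hsr1⟩ := hD.torus A n
  obtain ⟨s2, r2, hsr2⟩ := hD.torus (LaurentPolynomial A) (n + 1)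
  have h1 : Mono s1 := (SplitMono.mk r1 hsr1).mono
  have h2 : Mono s2 := (SplitMono.mk r2 hsr2).mono
  have e1 : (n + 1 + 1 : ℤ) = n + 2 := by ring
  have h3 : ∃ s : D.H n (aff R A) ⟶ D.H (n + 1 + 1) (aff R (Tor A)), Mono s :=
    ⟨s1 ≫ s2, mono_comp _ _⟩
  rw [e1] at h3
  exact h3

end torus

section emb

include hW hD

/-- **Separation of weights.** The cohomology of the open part `x_0 y_0 ≠ 0` of a system of bilinear
equations is contained in the cohomology of a cubic hypersurface. -/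
theorem embed_sys {S : Set R} (h0 : 0 ∈ S) (h1 : 1 ∈ S) {β γ κ : Type} [Fintype β] [Fintype γ]
    [Fintype κ] (f : κ → MvPolynomial (β ⊕ γ) R) (hf : ∀ i, f i ∈ bilIn S β γ) (b0 : β) (c0 : γ) :
    ∃ (a b m : ℕ) (T : Fin (m + 1) → Fin a → Fin b → R), (∀ l i j, T l i j ∈ S) ∧
      ∀ n, ∃ g : (tw D.T m).obj (D.H n (aff R (Pc f (w0 R b0 c0)))) ⟶ D.H (n + 1 + 2 * m) (hypS T),
        Mono g := by
  obtain ⟨N, hN⟩ := hD.bounded (aff R (Pc f (w0 R b0 c0))) (ft_aff True)
  let k : ℕ := N.toNat + 1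
  have hk : N < 2 * (k : ℤ) := by
    have := Int.self_le_toNat N
    omega
  -- the closed part
  have hZ : ∀ n, D.Ge (2 * k) (D.H n (aff R (Pc (adj (ext f b0 c0 k) (w1 R b0 c0 k)) 1))) := by
    refine ge_pc hD (e := x1 R γ b0 k) hW ?_ ?_
    · exact ge_alg hD hW (firstE f b0 c0 k) (ge_pc_poly hD hW k)
    · exact ge_alg hD hW (secondE f b0 c0 k).symm (ge_pc_poly hD hW k)
  -- the open part
  have hU : ∀ n, D.Le N (D.H n (aff R (Pc (ext f b0 c0 k) (1 * w1 R b0 c0 k)))) := by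
    intro n
    obtain ⟨e⟩ := h_alg hD (openE f b0 c0 k) n
    exact hW.le_sub e.hom inferInstance N (hN n).1
  -- the equations
  let κ' := κ ⊕ (Fin k ⊕ Fin k)
  have hne : Nonempty κ' := ⟨Sum.inr (Sum.inl ⟨0, Nat.succ_pos _⟩)⟩
  obtain ⟨m, hm⟩ : ∃ m, Fintype.card κ' = m + 1 :=
    Nat.exists_eq_succ_of_ne_zero Fintype.card_ne_zero
  let e : Fin (m + 1) ≃ κ' := (Fintype.equivFinOfCardEq hm).symm
  let F : Fin (m + 1) → MvPolynomial (Ex β γ k) R := ext f b0 c0 k ∘ e
  have hF : Set.range F = Set.range (ext f b0 c0 k) := by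
    rw [Set.range_comp, e.range_eq_univ, Set.image_univ]
  obtain ⟨T, hTS, hT⟩ := jou_hyp hD F (S := S) (fun l => ext_mem f b0 c0 k h0 h1 hf _)
  refine ⟨_, _, m, T, hTS, fun n => ?_⟩
  by_cases hn : N < n
  · have hz : IsZero ((tw D.T m).obj (D.H n (aff R (Pc f (w0 R b0 c0))))) :=
      tw_zero hW.zero m _ ((hN n).2 hn)
    exact ⟨0, hz.mono _⟩
  · have hn' : n ≠ 2 * Fintype.card (Ex β γ k) := by
      have h3 : (k : ℤ) ≤ Fintype.card (Ex β γ k) := by
        have : k ≤ Fintype.card (Ex β γ k) := by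
          rw [Fintype.card_sum, Fintype.card_sum, Fintype.card_fin]
          omega
        exact_mod_cast this
      omega
    obtain ⟨g1, hg1⟩ := mono_pc hD hW hk hZ hU n
    obtain ⟨e1⟩ := h_alg hD (openE f b0 c0 k).symm n
    obtain ⟨e2⟩ := h_alg hD (oneE (ext f b0 c0 k)).symm n
    have h2 := mono_jou hW hD F n hn'
    rw [hF] at h2
    obtain ⟨g2, hg2⟩ := h2
    obtain ⟨e3⟩ := hT (n + 1 + 2 * m)
    have h4 : Mono (e1.hom ≫ g1 ≫ e2.hom) := mono_comp' inferInstance (mono_comp _ _)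
    have h5 : Mono ((tw D.T m).map (e1.hom ≫ g1 ≫ e2.hom)) := tw_mono hW.mono m _ h4
    exact ⟨(tw D.T m).map (e1.hom ≫ g1 ≫ e2.hom) ≫ g2 ≫ e3.hom,
      mono_comp' h5 (mono_comp _ _)⟩

/-- For every affine scheme `Spec A` with a presentation by polynomials with coefficients in `S` there
is a cubic hypersurface `T(x, y, z) = 1`, where the coefficients of `T` are in `S`, such that, for all
`n`, the twist `H^n_c(Spec A)(-m)` is a subobject of `H^{n+3+2m}_c` of the hypersurface. -/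
theorem embed_pres {S : Set R} (h0 : 0 ∈ S) (h1 : 1 ∈ S) (A : Type) [CommRing A]
    [Algebra R A] [Algebra.FiniteType R A] (n0 : ℕ) (φ : MvPolynomial (Fin n0) R →ₐ[R] A)
    (G : Finset (MvPolynomial (Fin n0) R)) (hs : Function.Surjective φ)
    (hK : RingHom.ker φ = Ideal.span (G : Set (MvPolynomial (Fin n0) R)))
    (hc : ∀ g ∈ G, ∀ m, coeff m g ∈ S) :
    ∃ (a b m : ℕ) (T : Fin (m + 1) → Fin a → Fin b → R), (∀ l i j, T l i j ∈ S) ∧
      ∀ n, ∃ g : (tw D.T m).obj (D.H n (aff R A)) ⟶ D.H (n + 3 + 2 * m) (hypS T), Mono g := by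
  classical
  let d : ℕ := 1 + ∑ g ∈ G, ∑ m ∈ g.support, m.degree
  have hd : ∀ g ∈ G, ∀ m ∈ g.support, m.degree ≤ d := by
    intro g hg m hm
    have h1 : m.degree ≤ ∑ m ∈ g.support, m.degree :=
      Finset.single_le_sum (f := fun m : Fin n0 →₀ ℕ => m.degree) (fun _ _ => Nat.zero_le _) hm
    have h2 : ∑ m ∈ g.support, m.degree ≤ ∑ g ∈ G, ∑ m ∈ g.support, m.degree :=
      Finset.single_le_sum (f := fun g : MvPolynomial (Fin n0) R => ∑ m ∈ g.support, m.degree)
        (fun _ _ => Nat.zero_le _) hg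
    omega
  have hd1 : 1 ≤ d := by omega
  have hG : ∀ g ∈ G, φ g = 0 := by
    intro g hg
    have : g ∈ RingHom.ker φ := by
      rw [hK]
      exact Ideal.subset_span hg
    exact this
  obtain ⟨a, b, m, T, hT, h⟩ := embed_sys hW hD h0 h1 (eqs hd1 G) (eqs_mem hd1 G h0 h1 hc)
    (mo n0 d) (mo n0 d)
  refine ⟨a, b, m, T, hT, fun n => ?_⟩
  obtain ⟨g, hg⟩ := h (n + 2)
  have h6 : Algebra.FiniteType R (LCone hd1 G) :=
    Algebra.FiniteType.trans (S := Cone hd1 G) inferInstance inferInstance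
  have h7 := ft_laurent (R := R) A
  obtain ⟨e⟩ := h_alg hD (coneEquiv hd1 G φ hG hd hs hK) (n + 2)
  obtain ⟨s, hs⟩ := mono_torus hD A n
  have h8 : Mono (s ≫ e.inv) := mono_comp _ _
  have h9 : Mono ((tw D.T m).map (s ≫ e.inv)) := tw_mono hW.mono m _ h8
  have e2 : (n + 2 + 1 : ℤ) = n + 3 := by ring
  have h10 : ∃ g : (tw D.T m).obj (D.H n (aff R A)) ⟶ D.H (n + 2 + 1 + 2 * m) (hypS T), Mono g :=
    ⟨(tw D.T m).map (s ≫ e.inv) ≫ g, mono_comp' h9 hg⟩
  rw [e2] at h10
  exact h10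

/-- **Theorem.** For every affine scheme `Spec A` of finite type over `R` there is a cubic hypersurface
`T(x, y, z) = 1` such that, for all `n`, the twist `H^n_c(Spec A)(-m)` is a subobject of
`H^{n+3+2m}_c` of the hypersurface. -/
theorem embed {S : Set R} (h0 : 0 ∈ S) (h1 : 1 ∈ S) (hS : Presents S) (A : Type) [CommRing A]
    [Algebra R A] [Algebra.FiniteType R A] :
    ∃ (a b m : ℕ) (T : Fin (m + 1) → Fin a → Fin b → R), (∀ l i j, T l i j ∈ S) ∧
      ∀ n, ∃ g : (tw D.T m).obj (D.H n (aff R A)) ⟶ D.H (n + 3 + 2 * m) (hypS T), Mono g := by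
  obtain ⟨n0, φ, G, hs, hK, hc⟩ := hS A
  exact embed_pres hW hD h0 h1 A n0 φ G hs hK hc

end emb

end Pool.Agent.Helper5.WS
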