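import Pool.Agent.Helper5.WS.Emb
import Pool.Agent.Helper5.WS.Desc
import Pool.Agent.Y116.UV.Graph
import Mathlib.AlgebraicGeometry.Morphisms.OpenImmersion

/-!
# The hypersurfaces of sets of triples
-/

set_option autoImplicit false

open CategoryTheory CategoryTheory.Limits AlgebraicGeometry MvPolynomial
open Pool.Agent.Y116.UV Pool.Agent.Z125.UN

namespace Pool.Agent.Helper5.WS

universe v u

/-- A trilinear form with the coefficients `0` and `1`. -/
lemma trip_of_tri {R : Type} [CommRing R] {a b c : ℕ} (T : Fin a → Fin b → Fin c → R)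
    (hT : ∀ i j l, T i j l ∈ ({0, 1} : Set R)) :
    ∃ E : Finset (Fin a × Fin b × Fin c), hypS T = tripS R E := by
  classical
  let E : Finset (Fin a × Fin b × Fin c) := Finset.univ.filter fun h => T h.1 h.2.1 h.2.2 = 1
  have h1 : T = fun i j k => if (i, j, k) ∈ E then (1 : R) else 0 := by
    funext i j k
    have hm : (i, j, k) ∈ E ↔ T i j k = 1 := by
      rw [Finset.mem_filter]
      exact ⟨fun h => h.2, fun h => ⟨Finset.mem_univ _, h⟩⟩
    by_cases h : T i j k = 1
    · rw [if_pos (hm.mpr h), h]
    · rw [if_neg fun h2 => h (hm.mp h2)]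
      rcases hT i j k with h2 | h2
      · exact h2
      · exact absurd h2 h
  refine ⟨E, ?_⟩
  unfold hypS tripS Trip
  rw [← tri_ind, ← h1]

/-- The closed immersion given by an idempotent is open. -/
lemma open_affMap {R A B : Type} [CommRing R] [CommRing A] [CommRing B] [Algebra R A] [Algebra R B]
    (f : A →ₐ[R] B) (hf : Function.Surjective f) (e : A) (he : IsIdempotentElem e)
    (hk : RingHom.ker f = Ideal.span {e}) : IsOpenImmersion (affMap f).left := by
  have h := (isOpenImmersion_SpecMap_iff_of_surjective (CommRingCat.ofHom (f : A →+* B)) hf).mpr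
    ⟨e, he, hk⟩
  exact h

variable {k : Type} [Field k] {C : Type u} [Category.{v} C] [Abelian C] {D : CompactThy k C}
  (hW : IsWt D) (hD : IsCompactThy D)

include hW hD

/-- **Theorem.** Let `k` be a separable algebraic extension of a field `F` over which all algebras of
finite type have presentations with the coefficients `0` and `1` (for example of its prime field). For
every affine scheme `Spec A` of finite type over `k` there is a finite set `E` of triples such that, for
all `n`, the twist `H^n_c(Spec A)(-m)` is a subobject of `H^{n+3+2m}_c` of the hypersurface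
`∑_{(l, i, j) ∈ E} x_l y_i z_j = 1` over `k`. -/
theorem embed_trip {F : Type} [Field F] [Algebra F k] [Algebra.IsSeparable F k]
    (hF : Presents ({0, 1} : Set F)) (A : Type) [CommRing A] [Algebra k A]
    [Algebra.FiniteType k A] :
    ∃ (a b m : ℕ) (E : Finset (Fin (m + 1) × Fin a × Fin b)),
      ∀ n, ∃ g : (tw D.T m).obj (D.H n (aff k A)) ⟶ D.H (n + 3 + 2 * m) (tripS k E), Mono g := by
  obtain ⟨N, G, hc, ψ, hψ, e, he, hker⟩ := exists_clopen (k := k) hF A
  obtain ⟨a, b, m, T, hT, h⟩ := embed_pres hW hD (S := ({0, 1} : Set k)) (Or.inl rfl) (Or.inr rfl)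
    (MvPolynomial (Fin N) k ⧸ Ideal.span (G : Set (MvPolynomial (Fin N) k))) N
    (Ideal.Quotient.mkₐ k _) G (Ideal.Quotient.mkₐ_surjective k _) (Ideal.Quotient.mkₐ_ker k _) hc
  obtain ⟨E, hE⟩ := trip_of_tri T hT
  refine ⟨a, b, m, E, fun n => ?_⟩
  have hc1 : IsClosedImmersion (affMap ψ).left := closed_affMap ψ hψ
  have ho1 : IsOpenImmersion (affMap ψ).left := open_affMap ψ hψ e he hker
  obtain ⟨s, r, hsr⟩ := hD.clopen (affMap ψ) (ft_aff True) hc1 ho1 n
  have hs : Mono s := (SplitMono.mk r hsr).mono
  rw [hE] at h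
  obtain ⟨g, hg⟩ := h n
  exact ⟨(tw D.T m).map s ≫ g, mono_comp' (tw_mono hW.mono m _ hs) hg⟩

end Pool.Agent.Helper5.WS
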