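import Pool.Agent.Helper5.WS.Defs

/-!
# Vector spaces with an operator `F` (Frobenius) and their weights

A vector space over `K` with an operator `F` is a module over the polynomial ring `K[F]`.
-/

set_option autoImplicit false

open CategoryTheory CategoryTheory.Limits AlgebraicGeometry Polynomial Pool.Agent.Y116.UV

namespace Pool.Agent.Helper5.WS

section defs

variable {K : Type} [Field K]

/-- The number `α` is a Weil number of weight `w`: all its images in `ℂ` have absolute value
`q ^ (w / 2)`. -/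
def IsWeil (q : ℕ) (w : ℤ) (α : K) : Prop := ∀ ι : K →+* ℂ, ‖ι α‖ ^ 2 = (q : ℝ) ^ w

/-- The number `α` is an eigenvalue of the operator `F` on `M`. -/
def IsEig (M : Type) [AddCommGroup M] [Module K[X] M] (α : K) : Prop :=
  ∃ m : M, m ≠ 0 ∧ (X : K[X]) • m = (C α : K[X]) • m

/-- Every element of `M` is annihilated by a non-zero polynomial in `F` (this is so if `M` has finite
dimension). -/
def LocFin (K : Type) [Field K] (M : Type) [AddCommGroup M] [Module K[X] M] : Prop :=
  ∀ m : M, ∃ p : K[X], p ≠ 0 ∧ p • m = 0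

/-- The eigenvalues of `F` on `M` are Weil numbers of weights `≤ w`. -/
def LeF (K : Type) [Field K] (q : ℕ) (w : ℤ) (M : ModuleCat.{0} K[X]) : Prop :=
  LocFin K M ∧ ∀ α : K, IsEig M α → ∃ j ≤ w, IsWeil q j α

/-- The eigenvalues of `F` on `M` are Weil numbers of weights `≥ w`. -/
def GeF (K : Type) [Field K] (q : ℕ) (w : ℤ) (M : ModuleCat.{0} K[X]) : Prop :=
  LocFin K M ∧ ∀ α : K, IsEig M α → ∃ j ≥ w, IsWeil q j α

/-- The homomorphism `F ↦ q F` of the polynomial ring. -/
noncomputable def scl (K : Type) [Field K] (q : ℕ) : K[X] →+* K[X] :=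
  ((aeval (C (q : K) * X) : K[X] →ₐ[K] K[X]) : K[X] →+* K[X])

/-- The Tate twist `M(-1)`: the same space, the operator is multiplied by `q`. -/
noncomputable def tateTwist (K : Type) [Field K] (q : ℕ) :
    ModuleCat.{0} K[X] ⥤ ModuleCat.{0} K[X] :=
  ModuleCat.restrictScalars (scl K q)

/-- The theory given by the vector spaces `H i X` with an operator. -/
noncomputable def frobThy {k : Type} [Field k] (K : Type) [Field K] (q : ℕ)
    (H : ℤ → Sch k → ModuleCat.{0} K[X]) : CompactThy k (ModuleCat.{0} K[X]) where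
  H := H
  T := tateTwist K q
  Le := LeF K q
  Ge := GeF K q

end defs

section alg

variable {K : Type} [Field K] {M N : Type} [AddCommGroup M] [Module K[X] M] [AddCommGroup N]
  [Module K[X] N]

lemma pow_kill {α : K} (h : ¬ IsEig M α) (m : M) (n : ℕ) (hm : (X - C α) ^ n • m = 0) : m = 0 := by
  induction n generalizing m with
  | zero => simpa using hm
  | succ n ih =>
    rw [pow_succ', mul_smul] at hm
    by_contra h0
    apply h
    refine ⟨(X - C α) ^ n • m, ?_, ?_⟩
    · intro h1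
      exact h0 (ih m h1)
    · rw [sub_smul, sub_eq_zero] at hm
      exact hm

/-- An eigenvalue of the image is an eigenvalue. -/
lemma eig_of_image (hM : LocFin K M) (f : M →ₗ[K[X]] N) {α : K} (a : M) (ha : f a ≠ 0)
    (h : (X : K[X]) • f a = (C α : K[X]) • f a) : IsEig M α := by
  by_contra hc
  obtain ⟨p, hp, hpa⟩ := hM a
  obtain ⟨q, hq, hqd⟩ := exists_eq_pow_rootMultiplicity_mul_and_not_dvd p hp α
  rw [hq, mul_smul] at hpa
  have h1 : q • a = 0 := pow_kill hc _ _ hpa
  have h2 : IsCoprime (X - C α) q := by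
    rw [(irreducible_X_sub_C α).coprime_iff_not_dvd]
    exact hqd
  obtain ⟨u, v, huv⟩ := h2
  have h3 : f a = (u * (X - C α) + v * q) • f a := by rw [huv, one_smul]
  have h4 : (X - C α : K[X]) • f a = 0 := by rw [sub_smul, h, sub_self]
  have h5 : q • f a = 0 := by rw [← map_smul, h1, map_zero]
  rw [add_smul, mul_smul, mul_smul, h4, h5, smul_zero, smul_zero, add_zero] at h3
  exact ha h3

lemma locFin_sub (f : M →ₗ[K[X]] N) (hf : Function.Injective f) (h : LocFin K N) : LocFin K M := by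
  intro m
  obtain ⟨p, hp, hpm⟩ := h (f m)
  refine ⟨p, hp, hf ?_⟩
  rw [map_smul, hpm, map_zero]

lemma eig_sub (f : M →ₗ[K[X]] N) (hf : Function.Injective f) {α : K} (h : IsEig M α) :
    IsEig N α := by
  obtain ⟨m, hm, h1⟩ := h
  refine ⟨f m, fun h0 => hm (hf (by rw [h0, map_zero])), ?_⟩
  rw [← map_smul, h1, map_smul]

variable {E : Type} [AddCommGroup E] [Module K[X] E]

lemma locFin_mid (f : M →ₗ[K[X]] N) (g : N →ₗ[K[X]] E) (h : ∀ x, g x = 0 → ∃ y, f y = x)
    (hM : LocFin K M) (hE : LocFin K E) : LocFin K N := by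
  intro n
  obtain ⟨p, hp, hpn⟩ := hE (g n)
  obtain ⟨m, hm⟩ := h (p • n) (by rw [map_smul, hpn])
  obtain ⟨q, hq, hqm⟩ := hM m
  refine ⟨q * p, mul_ne_zero hq hp, ?_⟩
  rw [mul_smul, ← hm, ← map_smul, hqm, map_zero]

lemma eig_mid (f : M →ₗ[K[X]] N) (g : N →ₗ[K[X]] E) (h : ∀ x, g x = 0 → ∃ y, f y = x)
    (hM : LocFin K M) {α : K} (hα : IsEig N α) : IsEig M α ∨ IsEig E α := by
  obtain ⟨n, hn, h1⟩ := hα
  by_cases h0 : g n = 0
  · left
    obtain ⟨m, rfl⟩ := h n h0
    exact eig_of_image hM f m hn h1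
  · right
    exact ⟨g n, h0, by rw [← map_smul, h1, map_smul]⟩

lemma exists_eig [IsAlgClosed K] (hM : LocFin K M) (m : M) (hm : m ≠ 0) : ∃ α : K, IsEig M α := by
  by_contra hc
  push Not at hc
  have key : ∀ (n : ℕ) (p : K[X]), p.natDegree = n → p ≠ 0 → ∀ m : M, p • m = 0 → m = 0 := by
    intro n
    induction n with
    | zero =>
      intro p hp hp0 m hm
      rw [eq_C_of_natDegree_eq_zero hp] at hm hp0
      have h1 : p.coeff 0 ≠ 0 := fun h => hp0 (by rw [h, map_zero])
      have h2 : (C (p.coeff 0)⁻¹ * C (p.coeff 0) : K[X]) = 1 := by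
        rw [← C_mul, inv_mul_cancel₀ h1, C_1]
      rw [← one_smul K[X] m, ← h2, mul_smul, hm, smul_zero]
    | succ n ih =>
      intro p hp hp0 m hm
      obtain ⟨α, hα⟩ := IsAlgClosed.exists_root p (by
        rw [degree_eq_natDegree hp0, hp]
        exact_mod_cast Nat.succ_ne_zero n)
      obtain ⟨r, rfl⟩ := dvd_iff_isRoot.mpr hα
      have hr0 : r ≠ 0 := right_ne_zero_of_mul hp0
      have hd : r.natDegree = n := by
        rw [natDegree_mul (X_sub_C_ne_zero α) hr0, natDegree_X_sub_C] at hp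
        omega
      rw [mul_smul] at hm
      have h1 : r • m = 0 := pow_kill (hc α) (r • m) 1 (by rw [pow_one]; exact hm)
      exact ih r hd hr0 m h1
  obtain ⟨p, hp, hpm⟩ := hM m
  exact hm (key _ p rfl hp m hpm)

end alg

section weil

variable {K : Type} [Field K]

lemma weil_unique [Nonempty (K →+* ℂ)] {q : ℕ} (hq : 1 < q) {w w' : ℤ} {α : K}
    (h : IsWeil q w α) (h' : IsWeil q w' α) : w = w' := by
  obtain ⟨ι⟩ := ‹Nonempty (K →+* ℂ)›
  have h1 := (h ι).symm.trans (h' ι)
  have hq1 : (1 : ℝ) < q := by exact_mod_cast hq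
  exact zpow_right_injective₀ (by linarith) hq1.ne' h1

lemma weil_mul {q : ℕ} (hq : 1 < q) {w : ℤ} {α : K} (h : IsWeil q w α) :
    IsWeil q (w + 2) ((q : K) * α) := by
  intro ι
  have hq0 : (q : ℝ) ≠ 0 := by
    have : 0 < q := by omega
    exact_mod_cast this.ne'
  rw [map_mul, map_natCast, norm_mul, mul_pow, h ι, zpow_add₀ hq0, Complex.norm_natCast]
  have h2 : ((q : ℝ)) ^ (2 : ℤ) = (q : ℝ) ^ 2 := by norm_cast
  rw [h2, mul_comm]

end weil

section twist

variable {K : Type} [Field K] {q : ℕ}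

lemma scl_X : scl K q X = C (q : K) * X := by
  rw [scl, RingHom.coe_coe, aeval_X]

lemma scl_C (a : K) : scl K q (C a) = C a := by
  rw [scl, RingHom.coe_coe, aeval_C]
  rfl

lemma scl_surjective (hq : (q : K) ≠ 0) : Function.Surjective (scl K q) := by
  intro p
  refine ⟨aeval (C (q : K)⁻¹ * X) p, ?_⟩
  have h : (aeval (C (q : K) * X) : K[X] →ₐ[K] K[X]).comp (aeval (C (q : K)⁻¹ * X)) =
      AlgHom.id K K[X] := by
    apply Polynomial.algHom_ext
    rw [AlgHom.comp_apply, aeval_X, map_mul, aeval_X, aeval_C]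
    change C (q : K)⁻¹ * (C (q : K) * X) = X
    rw [← mul_assoc, ← C_mul, inv_mul_cancel₀ hq, C_1, one_mul]
  exact congrArg (fun f : K[X] →ₐ[K] K[X] => f p) h

/-- the underlying space of the twist -/
def un (M : ModuleCat.{0} K[X]) (m : (tateTwist K q).obj M) : M := m

lemma un_smul (M : ModuleCat.{0} K[X]) (p : K[X]) (m : (tateTwist K q).obj M) :
    un M (p • m) = scl K q p • un M m := rfl

lemma un_zero (M : ModuleCat.{0} K[X]) : un (q := q) M 0 = 0 := rfl

lemma un_injective (M : ModuleCat.{0} K[X]) : Function.Injective (un (q := q) M) :=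
  fun _ _ h => h

lemma locFin_twist (hq : (q : K) ≠ 0) (M : ModuleCat.{0} K[X]) (h : LocFin K M) :
    LocFin K ((tateTwist K q).obj M) := by
  intro m
  obtain ⟨p, hp, hpm⟩ := h (un M m)
  obtain ⟨r, rfl⟩ := scl_surjective hq p
  refine ⟨r, ?_, ?_⟩
  · rintro rfl
    exact hp (map_zero _)
  · exact un_injective M ((un_smul M r m).trans hpm)

lemma eig_twist (hq : (q : K) ≠ 0) (M : ModuleCat.{0} K[X]) {α : K}
    (h : IsEig ((tateTwist K q).obj M) α) : IsEig M ((q : K)⁻¹ * α) := by
  obtain ⟨m, hm, h1⟩ := h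
  refine ⟨un M m, fun h0 => hm (un_injective M h0), ?_⟩
  have h2 := congrArg (un M) h1
  rw [un_smul, un_smul, scl_X, scl_C] at h2
  have h3 : (C (q : K)⁻¹ * (C (q : K) * X) : K[X]) = X := by
    rw [← mul_assoc, ← C_mul, inv_mul_cancel₀ hq, C_1, one_mul]
  rw [← h3, mul_smul, h2, ← mul_smul, ← C_mul]

end twist

section wt

variable {k : Type} [Field k] {K : Type} [Field K] [IsAlgClosed K] [Nonempty (K →+* ℂ)] {q : ℕ}

/-- The properties of the weights. -/
theorem isWt_frob (hq : 1 < q) (H : ℤ → Sch k → ModuleCat.{0} K[X]) : IsWt (frobThy K q H) := by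
  have hq0 : (q : K) ≠ 0 := by
    obtain ⟨ι⟩ := ‹Nonempty (K →+* ℂ)›
    intro h
    have h1 := congrArg ι h
    rw [map_natCast, map_zero] at h1
    have h2 : q = 0 := by exact_mod_cast h1
    omega
  refine
    { mono := ?_, zero := ?_, le_sub := ?_, ge_mid := ?_, ge_twist := ?_, disjoint := ?_ }
  · intro A B f hf
    rw [ModuleCat.mono_iff_injective] at hf ⊢
    exact hf
  · intro A hA
    have h : Subsingleton A := ModuleCat.subsingleton_of_isZero hA
    have h2 : Subsingleton ((tateTwist K q).obj A) := (un_injective A).subsingleton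
    exact ModuleCat.isZero_of_subsingleton ((tateTwist K q).obj A)
  · intro A B f hf w hB
    rw [ModuleCat.mono_iff_injective] at hf
    exact ⟨locFin_sub f.hom hf hB.1, fun α hα => hB.2 α (eig_sub f.hom hf hα)⟩
  · intro A B E f g hfg w hA hE
    obtain ⟨h0, hex⟩ := hfg
    have h1 : ∀ x, g.hom x = 0 → ∃ y, f.hom y = x := (ShortComplex.moduleCat_exact_iff _).mp hex
    refine ⟨locFin_mid f.hom g.hom h1 hA.1 hE.1, fun α hα => ?_⟩
    rcases eig_mid f.hom g.hom h1 hA.1 hα with h2 | h2
    · exact hA.2 α h2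
    · exact hE.2 α h2
  · intro A w hA
    refine ⟨locFin_twist hq0 A hA.1, fun α hα => ?_⟩
    obtain ⟨j, hj, hw⟩ := hA.2 _ (eig_twist hq0 A hα)
    refine ⟨j + 2, by linarith, ?_⟩
    have h1 := weil_mul hq hw
    rwa [mul_inv_cancel_left₀ hq0] at h1
  · intro A w w' hww hle hge
    have h : Subsingleton A := by
      refine subsingleton_of_forall_eq 0 fun m => ?_
      by_contra hm
      obtain ⟨α, hα⟩ := exists_eig hle.1 m hm
      obtain ⟨j, hj, h1⟩ := hle.2 α hα
      obtain ⟨j', hj', h1'⟩ := hge.2 α hα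
      have := weil_unique hq h1 h1'
      omega
    exact ModuleCat.isZero_of_subsingleton _

end wt

section semisimple

variable {K : Type} [Field K] {q : ℕ}

lemma ss_twist (hq : (q : K) ≠ 0) (M : ModuleCat.{0} K[X]) :
    IsSemisimpleModule K[X] ((tateTwist K q).obj M) ↔ IsSemisimpleModule K[X] M := by
  have : RingHomSurjective (scl K q) := ⟨scl_surjective hq⟩
  let l : (tateTwist K q).obj M →ₛₗ[scl K q] M :=
    { toFun := un M
      map_add' := fun _ _ => rfl
      map_smul' := fun p m => un_smul M p m }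
  exact l.isSemisimpleModule_iff_of_bijective ⟨un_injective M, fun m => ⟨m, rfl⟩⟩

lemma ss_tw (hq : (q : K) ≠ 0) (n : ℕ) (M : ModuleCat.{0} K[X]) :
    IsSemisimpleModule K[X] ((tw (tateTwist K q) n).obj M) ↔ IsSemisimpleModule K[X] M := by
  induction n generalizing M with
  | zero => rfl
  | succ n ih => exact (ih _).trans (ss_twist hq M)

lemma ss_mono {M N : ModuleCat.{0} K[X]} (f : M ⟶ N) (hf : Mono f)
    (h : IsSemisimpleModule K[X] N) : IsSemisimpleModule K[X] M := by
  rw [ModuleCat.mono_iff_injective] at hf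
  exact IsSemisimpleModule.of_injective f.hom hf

end semisimple

end Pool.Agent.Helper5.WS
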