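import Mathlib

/-!
# Formal periods
-/

set_option autoImplicit false

open CategoryTheory TensorProduct

namespace Pool.Agent.Helper5.WS

universe v u

/-- Two realizations `dR`, with values in vector spaces over `k ⊆ ℂ`, and `B`, with values in
rational vector spaces, and the comparison isomorphisms. -/
structure Realizations (k : Type) [Field k] [Algebra k ℂ] (C : Type u) [Category.{v} C] where
  dR : C ⥤ ModuleCat.{0} k
  B : C ⥤ ModuleCat.{0} ℚ
  comp : ∀ M : C, (ℂ ⊗[k] dR.obj M) ≃ₗ[ℂ] (ℂ ⊗[ℚ] B.obj M)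

variable {k : Type} [Field k] [Algebra k ℂ] {C : Type u} [Category.{v} C]

/-- The image of `ω ∈ dR(M)` in `ℂ ⊗ B(M)` under the comparison isomorphism. -/
noncomputable def image (P : Realizations k C) (M : C) (ω : P.dR.obj M) : ℂ ⊗[ℚ] P.B.obj M :=
  P.comp M (1 ⊗ₜ[k] ω)

/-- The extension of the linear form `σ` on `V` to a linear form on `ℂ ⊗ V`. -/
noncomputable def extend {V : Type} [AddCommGroup V] [Module ℚ V] (σ : Module.Dual ℚ V) :
    ℂ ⊗[ℚ] V →ₗ[ℚ] ℂ :=
  (TensorProduct.rid ℚ ℂ : ℂ ⊗[ℚ] ℚ →ₗ[ℚ] ℂ) ∘ₗ LinearMap.lTensor ℂ σ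

/-- The period `σ(ω)` of `ω ∈ dR(M)` and `σ ∈ B(M)^∨`. -/
noncomputable def period (P : Realizations k C) (M : C) (ω : P.dR.obj M)
    (σ : Module.Dual ℚ (P.B.obj M)) : ℂ :=
  extend σ (image P M ω)

/-- The comparison isomorphism is functorial. -/
def IsNatural (P : Realizations k C) : Prop :=
  ∀ (M N : C) (f : M ⟶ N) (ω : P.dR.obj M),
    image P N ((P.dR.map f).hom ω) = LinearMap.lTensor ℂ (P.B.map f).hom (image P M ω)

/-- The symbols `(N, ω, σ)` with `N` in the class `𝒦`, `ω ∈ dR(N)` and `σ ∈ B(N)^∨`. -/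
def Symb (P : Realizations k C) (𝒦 : C → Prop) : Type u :=
  Σ N : {N : C // 𝒦 N}, P.dR.obj N.1 × Module.Dual ℚ (P.B.obj N.1)

/-- The symbol `(N, ω, σ)` as a vector. -/
noncomputable def symb {P : Realizations k C} {𝒦 : C → Prop} (N : C) (hN : 𝒦 N) (ω : P.dR.obj N)
    (σ : Module.Dual ℚ (P.B.obj N)) : Symb P 𝒦 →₀ k :=
  Finsupp.single ⟨⟨N, hN⟩, (ω, σ)⟩ 1

/-- The relations between the symbols: bilinearity in `(ω, σ)` and functoriality,
`(N, ω, B(f)^∨ σ') = (N', dR(f) ω, σ')` for `f : N ⟶ N'`. -/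
inductive IsRelation (P : Realizations k C) (𝒦 : C → Prop) : (Symb P 𝒦 →₀ k) → Prop
  | add_left (N : C) (hN : 𝒦 N) (ω ω' : P.dR.obj N) (σ : Module.Dual ℚ (P.B.obj N)) :
      IsRelation P 𝒦 (symb N hN (ω + ω') σ - symb N hN ω σ - symb N hN ω' σ)
  | smul_left (N : C) (hN : 𝒦 N) (a : k) (ω : P.dR.obj N) (σ : Module.Dual ℚ (P.B.obj N)) :
      IsRelation P 𝒦 (symb N hN (a • ω) σ - a • symb N hN ω σ)
  | add_right (N : C) (hN : 𝒦 N) (ω : P.dR.obj N) (σ σ' : Module.Dual ℚ (P.B.obj N)) :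
      IsRelation P 𝒦 (symb N hN ω (σ + σ') - symb N hN ω σ - symb N hN ω σ')
  | smul_right (N : C) (hN : 𝒦 N) (a : ℚ) (ω : P.dR.obj N) (σ : Module.Dual ℚ (P.B.obj N)) :
      IsRelation P 𝒦 (symb N hN ω (a • σ) - (a : k) • symb N hN ω σ)
  | functor (N N' : C) (hN : 𝒦 N) (hN' : 𝒦 N') (f : N ⟶ N') (ω : P.dR.obj N)
      (σ' : Module.Dual ℚ (P.B.obj N')) :
      IsRelation P 𝒦 (symb N hN ω (σ' ∘ₗ (P.B.map f).hom) - symb N' hN' ((P.dR.map f).hom ω) σ')

/-- The evaluation `(N, ω, σ) ↦ σ(ω)` is injective on the formal periods of the class `𝒦`, that is: every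
linear relation between the periods of the objects of `𝒦` is a consequence of bilinearity and
functoriality. -/
def PeriodInjective (P : Realizations k C) (𝒦 : C → Prop) : Prop :=
  ∀ x : Symb P 𝒦 →₀ k,
    Finsupp.linearCombination k (fun s : Symb P 𝒦 => period P s.1.1 s.2.1 s.2.2) x = 0 →
      x ∈ Submodule.span k {y | IsRelation P 𝒦 y}

section incl

variable (P : Realizations k C) {𝒦 𝒦' : C → Prop} (h : ∀ N, 𝒦 N → 𝒦' N)

/-- the inclusion of the symbols -/
def incl (s : Symb P 𝒦) : Symb P 𝒦' := ⟨⟨s.1.1, h s.1.1 s.1.2⟩, s.2⟩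

lemma incl_injective : Function.Injective (incl P h) := by
  rintro ⟨⟨N, hN⟩, p⟩ ⟨⟨N', hN'⟩, p'⟩ he
  have h1 : N = N' := congrArg (fun s : Symb P 𝒦' => s.1.1) he
  subst h1
  have h2 : (⟨⟨N, h N hN⟩, p⟩ : Symb P 𝒦') = ⟨⟨N, h N hN⟩, p'⟩ := he
  have h3 : p = p' := eq_of_heq (Sigma.mk.inj h2).2
  rw [h3]

lemma map_symb (N : C) (hN : 𝒦 N) (ω : P.dR.obj N) (σ : Module.Dual ℚ (P.B.obj N)) :
    Finsupp.lmapDomain k k (incl P h) (symb N hN ω σ) = symb N (h N hN) ω σ := by
  rw [symb, Finsupp.lmapDomain_apply, Finsupp.mapDomain_single]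
  rfl

lemma map_relation {x : Symb P 𝒦 →₀ k} (hx : IsRelation P 𝒦 x) :
    IsRelation P 𝒦' (Finsupp.lmapDomain k k (incl P h) x) := by
  cases hx with
  | add_left N hN ω ω' σ =>
    rw [map_sub, map_sub, map_symb, map_symb, map_symb]
    exact IsRelation.add_left N (h N hN) ω ω' σ
  | smul_left N hN a ω σ =>
    rw [map_sub, map_smul, map_symb, map_symb]
    exact IsRelation.smul_left N (h N hN) a ω σ
  | add_right N hN ω σ σ' =>
    rw [map_sub, map_sub, map_symb, map_symb, map_symb]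
    exact IsRelation.add_right N (h N hN) ω σ σ'
  | smul_right N hN a ω σ =>
    rw [map_sub, map_smul, map_symb, map_symb]
    exact IsRelation.smul_right N (h N hN) a ω σ
  | functor N N' hN hN' f ω σ' =>
    rw [map_sub, map_symb, map_symb]
    exact IsRelation.functor N N' (h N hN) (h N' hN') f ω σ'

lemma map_span {x : Symb P 𝒦 →₀ k} (hx : x ∈ Submodule.span k {y | IsRelation P 𝒦 y}) :
    Finsupp.lmapDomain k k (incl P h) x ∈ Submodule.span k {y | IsRelation P 𝒦' y} := by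
  have h1 : Submodule.span k {y | IsRelation P 𝒦 y} ≤
      (Submodule.span k {y | IsRelation P 𝒦' y}).comap (Finsupp.lmapDomain k k (incl P h)) := by
    rw [Submodule.span_le]
    intro y hy
    exact Submodule.subset_span (map_relation P h hy)
  exact h1 hx

end incl

/-- If every finite set of objects is contained in a class for which the evaluation is injective, then
the evaluation is injective for all objects. -/
theorem injective_of_list (P : Realizations k C)
    (h : ∀ l : List C, ∃ 𝒦 : C → Prop, (∀ N ∈ l, 𝒦 N) ∧ PeriodInjective P 𝒦) :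
    PeriodInjective P fun _ => True := by
  classical
  intro x hx
  obtain ⟨𝒦, h1, h2⟩ := h (x.support.toList.map fun s => s.1.1)
  let i : Symb P 𝒦 → Symb P fun _ => True := incl P fun _ _ => trivial
  have hi : Function.Injective i := incl_injective P _
  have hr : ∀ s ∈ x.support, s ∈ Set.range i := by
    intro s hs
    have h3 : 𝒦 s.1.1 := h1 _ (List.mem_map.mpr ⟨s, Finset.mem_toList.mpr hs, rfl⟩)
    exact ⟨⟨⟨s.1.1, h3⟩, s.2⟩, rfl⟩
  let x' := x.comapDomain i hi.injOn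
  have h3 : Finsupp.lmapDomain k k i x' = x :=
    Finsupp.mapDomain_comapDomain i hi x fun s hs => hr s hs
  have h4 : Finsupp.linearCombination k (fun s : Symb P 𝒦 => period P s.1.1 s.2.1 s.2.2) x' = 0 := by
    rw [← hx, ← h3, Finsupp.lmapDomain_apply, Finsupp.linearCombination_mapDomain]
    rfl
  rw [← h3]
  exact map_span P _ (h2 x' h4)

end Pool.Agent.Helper5.WS
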