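import Pool.Agent.Helper5.WS.Aff
import Pool.Agent.Y116.UV.Ring

/-!
# Separation of weights for systems of bilinear equations

A system `f = 0` of bilinear equations in the variables `x`, `y` is extended by variables `s_j`, `t_j` and
by the bilinear equations `x_0 t_j = 0`, `s_j y_0 = 0`, `j < k`. The open part `x_0 y_0 ≠ 0` does not
change, and the closed part `x_0 y_0 = 0` is a union of two pieces which are products with `𝔸^k`.
-/

set_option autoImplicit false

open CategoryTheory CategoryTheory.Limits AlgebraicGeometry MvPolynomial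
open Pool.Agent.Y116.UV Pool.Agent.Z125.UN

namespace Pool.Agent.Helper5.WS

variable {R : Type} [CommRing R]

lemma pc_rename {σ σ' κ : Type} (G : κ → MvPolynomial σ R) (w : MvPolynomial σ R) (g : σ' → σ)
    (p : MvPolynomial σ' R) : pc G w (rename g p) = aeval (fun s => pv G w (g s)) p := by
  rw [← pc_aeval, aeval_rename]
  rfl

variable {β γ κ : Type} (f : κ → MvPolynomial (β ⊕ γ) R) (b0 : β) (c0 : γ) (k : ℕ)

/-- the variables of the extended system -/
abbrev Ex (β γ : Type) (k : ℕ) : Type := (β ⊕ Fin k) ⊕ (γ ⊕ Fin k)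

/-- the old variables -/
def ro (β γ : Type) (k : ℕ) : β ⊕ γ → Ex β γ k := Sum.map Sum.inl Sum.inl

/-- the extended system -/
noncomputable def ext : κ ⊕ (Fin k ⊕ Fin k) → MvPolynomial (Ex β γ k) R
  | Sum.inl i => rename (ro β γ k) (f i)
  | Sum.inr (Sum.inl j) => X (Sum.inl (Sum.inl b0)) * X (Sum.inr (Sum.inr j))
  | Sum.inr (Sum.inr j) => X (Sum.inl (Sum.inr j)) * X (Sum.inr (Sum.inl c0))

/-- the function `x_0 y_0` -/
noncomputable def w0 (R : Type) [CommRing R] (b0 : β) (c0 : γ) : MvPolynomial (β ⊕ γ) R :=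
  X (Sum.inl b0) * X (Sum.inr c0)

/-- the function `x_0 y_0` -/
noncomputable def w1 (R : Type) [CommRing R] (b0 : β) (c0 : γ) (k : ℕ) :
    MvPolynomial (Ex β γ k) R :=
  X (Sum.inl (Sum.inl b0)) * X (Sum.inr (Sum.inl c0))

/-- the function `x_0` -/
noncomputable def x1 (R : Type) [CommRing R] (γ : Type) (b0 : β) (k : ℕ) : MvPolynomial (Ex β γ k) R :=
  X (Sum.inl (Sum.inl b0))

section openPart

/-- values of the variables -/
noncomputable def oa : Ex β γ k → Pc f (w0 R b0 c0)
  | Sum.inl (Sum.inl b) => pv f (w0 R b0 c0) (Sum.inl b)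
  | Sum.inl (Sum.inr _) => 0
  | Sum.inr (Sum.inl c) => pv f (w0 R b0 c0) (Sum.inr c)
  | Sum.inr (Sum.inr _) => 0

lemma oa_ro (s : β ⊕ γ) : oa f b0 c0 k (ro β γ k s) = pv f (w0 R b0 c0) s := by
  rcases s with b | c <;> rfl

/-- The open part `x_0 y_0 ≠ 0` does not change. -/
noncomputable def openE : Pc (ext f b0 c0 k) (1 * w1 R b0 c0 k) ≃ₐ[R] Pc f (w0 R b0 c0) :=
  pcEquiv (oa f b0 c0 k)
    (by
      rintro (i | j | j)
      · change aeval _ (rename _ (f i)) = 0
        rw [aeval_rename]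
        have h : (oa f b0 c0 k) ∘ (ro β γ k) = pv f (w0 R b0 c0) := funext (oa_ro f b0 c0 k)
        rw [h, pc_aeval, pc_rel]
      · change aeval _ (X (Sum.inl (Sum.inl b0)) * X (Sum.inr (Sum.inr j))) = 0
        rw [map_mul, aeval_X, aeval_X]
        exact mul_zero _
      · change aeval _ (X (Sum.inl (Sum.inr j)) * X (Sum.inr (Sum.inl c0))) = 0
        rw [map_mul, aeval_X, aeval_X]
        exact zero_mul _)
    (by
      rw [map_mul, map_one, one_mul, w1, map_mul, aeval_X, aeval_X]
      have h := pc_unit f (w0 R b0 c0)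
      rw [w0, map_mul] at h
      exact h)
    (fun s => pv (ext f b0 c0 k) (1 * w1 R b0 c0 k) (ro β γ k s))
    (by
      intro i
      rw [← pc_rename]
      exact pc_rel (ext f b0 c0 k) _ (Sum.inl i))
    (by
      rw [← pc_rename, w0, map_mul, rename_X, rename_X]
      exact pc_unit_right (ext f b0 c0 k) 1 (w1 R b0 c0 k))
    (by
      have hu : IsUnit (pc (ext f b0 c0 k) (1 * w1 R b0 c0 k) (w1 R b0 c0 k)) :=
        pc_unit_right (ext f b0 c0 k) 1 (w1 R b0 c0 k)
      rw [w1, map_mul] at hu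
      rintro ((b | j) | (c | j))
      · exact pcLift_pv _ _ _ _ _ _
      · change pcLift _ _ _ _ _ (0 : Pc f (w0 R b0 c0)) = _
        rw [map_zero]
        have h := pc_rel (ext f b0 c0 k) (1 * w1 R b0 c0 k) (Sum.inr (Sum.inr j))
        change pc _ _ (X (Sum.inl (Sum.inr j)) * X (Sum.inr (Sum.inl c0))) = 0 at h
        rw [map_mul] at h
        exact ((isUnit_of_mul_isUnit_right hu).mul_left_eq_zero.mp h).symm
      · exact pcLift_pv _ _ _ _ _ _
      · change pcLift _ _ _ _ _ (0 : Pc f (w0 R b0 c0)) = _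
        rw [map_zero]
        have h := pc_rel (ext f b0 c0 k) (1 * w1 R b0 c0 k) (Sum.inr (Sum.inl j))
        change pc _ _ (X (Sum.inl (Sum.inl b0)) * X (Sum.inr (Sum.inr j))) = 0 at h
        rw [map_mul] at h
        exact ((isUnit_of_mul_isUnit_left hu).mul_right_eq_zero.mp h).symm)
    (by
      intro s
      rw [pcLift_pv, oa_ro])

end openPart

section first

/-- the relations of the first piece `x_0 = 0` -/
noncomputable def G1 : κ ⊕ (Fin k ⊕ Unit) → MvPolynomial ((β ⊕ Fin k) ⊕ γ) R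
  | Sum.inl i => rename (Sum.map Sum.inl id) (f i)
  | Sum.inr (Sum.inl j) => X (Sum.inl (Sum.inr j)) * X (Sum.inr c0)
  | Sum.inr (Sum.inr _) => X (Sum.inl (Sum.inl b0))

/-- The piece `x_0 = 0` is a product with `𝔸^k`. -/
noncomputable def firstE : Pc (rl (G1 f b0 c0 k) (Fin k)) (rename Sum.inl 1) ≃ₐ[R]
    Pc (adj (adj (ext f b0 c0 k) (w1 R b0 c0 k)) (x1 R γ b0 k)) 1 :=
  pcEquiv (fun s => pv _ _ (Equiv.sumAssoc (β ⊕ Fin k) γ (Fin k) s))
    (by
      rintro (i | j | _)
      · change aeval _ (rename Sum.inl (rename (Sum.map Sum.inl id) (f i))) = 0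
        rw [← pc_rename, rename_rename, rename_rename]
        have h : ((⇑(Equiv.sumAssoc (β ⊕ Fin k) γ (Fin k)) ∘ Sum.inl) ∘ Sum.map Sum.inl id :
            β ⊕ γ → Ex β γ k) = ro β γ k := by
          funext s
          rcases s with b | c <;> rfl
        rw [h]
        exact pc_rel (adj (adj (ext f b0 c0 k) (w1 R b0 c0 k)) (x1 R γ b0 k)) 1
          (some (some (Sum.inl i)))
      · change aeval _ (rename Sum.inl (X (Sum.inl (Sum.inr j)) * X (Sum.inr c0))) = 0
        rw [map_mul, rename_X, rename_X, map_mul, aeval_X, aeval_X]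
        have h := pc_rel (adj (adj (ext f b0 c0 k) (w1 R b0 c0 k)) (x1 R γ b0 k)) 1
          (some (some (Sum.inr (Sum.inr j))))
        change pc _ _ (X (Sum.inl (Sum.inr j)) * X (Sum.inr (Sum.inl c0))) = 0 at h
        rw [map_mul] at h
        exact h
      · change aeval _ (rename Sum.inl (X (Sum.inl (Sum.inl b0)))) = 0
        rw [rename_X, aeval_X]
        exact pc_rel (adj (adj (ext f b0 c0 k) (w1 R b0 c0 k)) (x1 R γ b0 k)) 1 none)
    (by rw [map_one, map_one]; exact isUnit_one)
    (fun s => pv _ _ ((Equiv.sumAssoc (β ⊕ Fin k) γ (Fin k)).symm s))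
    (by
      have hx := pc_rel (rl (G1 f b0 c0 k) (Fin k)) (rename Sum.inl 1) (Sum.inr (Sum.inr ()))
      change pc _ _ (rename Sum.inl (X (Sum.inl (Sum.inl b0)))) = 0 at hx
      rw [rename_X] at hx
      rintro (_ | _ | i | j | j)
      · change aeval _ (X (Sum.inl (Sum.inl b0))) = 0
        rw [aeval_X]
        exact hx
      · change aeval _ (X (Sum.inl (Sum.inl b0)) * X (Sum.inr (Sum.inl c0))) = 0
        rw [map_mul, aeval_X]
        exact mul_eq_zero_of_left hx _
      · change aeval _ (rename (ro β γ k) (f i)) = 0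
        rw [← pc_rename, rename_rename]
        have h : (⇑(Equiv.sumAssoc (β ⊕ Fin k) γ (Fin k)).symm ∘ ro β γ k) =
            (Sum.inl ∘ Sum.map Sum.inl id : β ⊕ γ → ((β ⊕ Fin k) ⊕ γ) ⊕ Fin k) := by
          funext s
          rcases s with b | c <;> rfl
        rw [h, ← rename_rename]
        exact pc_rel (rl (G1 f b0 c0 k) (Fin k)) (rename Sum.inl 1) (Sum.inl i)
      · change aeval _ (X (Sum.inl (Sum.inl b0)) * X (Sum.inr (Sum.inr j))) = 0
        rw [map_mul, aeval_X]
        exact mul_eq_zero_of_left hx _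
      · change aeval _ (X (Sum.inl (Sum.inr j)) * X (Sum.inr (Sum.inl c0))) = 0
        rw [map_mul, aeval_X, aeval_X]
        have h := pc_rel (rl (G1 f b0 c0 k) (Fin k)) (rename Sum.inl 1) (Sum.inr (Sum.inl j))
        change pc _ _ (rename Sum.inl (X (Sum.inl (Sum.inr j)) * X (Sum.inr c0))) = 0 at h
        rw [map_mul, rename_X, rename_X, map_mul] at h
        exact h)
    (isUnit_one.map _)
    (by
      intro s
      rw [pcLift_pv, Equiv.symm_apply_apply])
    (by
      intro s
      rw [pcLift_pv, Equiv.apply_symm_apply])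

end first

section second

/-- values of the variables -/
noncomputable def sa : Ex β γ k → Pc (rl (adj f (X (Sum.inr c0))) (Fin k))
    (rename Sum.inl (X (Sum.inl b0) : MvPolynomial (β ⊕ γ) R))
  | Sum.inl (Sum.inl b) => pv _ _ (Sum.inl (Sum.inl b))
  | Sum.inl (Sum.inr j) => pv _ _ (Sum.inr j)
  | Sum.inr (Sum.inl c) => pv _ _ (Sum.inl (Sum.inr c))
  | Sum.inr (Sum.inr _) => 0

lemma sa_ro (s : β ⊕ γ) : sa f b0 c0 k (ro β γ k s) = pv _ _ (Sum.inl s) := by
  rcases s with b | c <;> rfl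

/-- values of the variables -/
noncomputable def sb : (β ⊕ γ) ⊕ Fin k →
    Pc (adj (ext f b0 c0 k) (w1 R b0 c0 k)) (1 * x1 R γ b0 k)
  | Sum.inl s => pv _ _ (ro β γ k s)
  | Sum.inr j => pv _ _ (Sum.inl (Sum.inr j))

/-- The piece `x_0 ≠ 0`, `y_0 = 0` is a product with `𝔸^k`. -/
noncomputable def secondE : Pc (adj (ext f b0 c0 k) (w1 R b0 c0 k)) (1 * x1 R γ b0 k) ≃ₐ[R]
    Pc (rl (adj f (X (Sum.inr c0))) (Fin k))
      (rename Sum.inl (X (Sum.inl b0) : MvPolynomial (β ⊕ γ) R)) :=
  pcEquiv (sa f b0 c0 k)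
    (by
      have hy := pc_rel (rl (adj f (X (Sum.inr c0))) (Fin k))
        (rename Sum.inl (X (Sum.inl b0) : MvPolynomial (β ⊕ γ) R)) none
      change pc _ _ (rename Sum.inl (X (Sum.inr c0))) = 0 at hy
      rw [pc_rename, aeval_X] at hy
      rintro (_ | i | j | j)
      · change aeval _ (X (Sum.inl (Sum.inl b0)) * X (Sum.inr (Sum.inl c0))) = 0
        rw [map_mul, aeval_X, aeval_X]
        exact mul_eq_zero_of_right _ hy
      · change aeval _ (rename (ro β γ k) (f i)) = 0
        rw [aeval_rename]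
        have h : (sa f b0 c0 k) ∘ (ro β γ k) = fun s => pv _ _ (Sum.inl s) :=
          funext (sa_ro f b0 c0 k)
        rw [h, ← pc_rename]
        exact pc_rel (rl (adj f (X (Sum.inr c0))) (Fin k)) _ (some i)
      · change aeval _ (X (Sum.inl (Sum.inl b0)) * X (Sum.inr (Sum.inr j))) = 0
        rw [map_mul, aeval_X, aeval_X]
        exact mul_zero _
      · change aeval _ (X (Sum.inl (Sum.inr j)) * X (Sum.inr (Sum.inl c0))) = 0
        rw [map_mul, aeval_X, aeval_X]
        exact mul_eq_zero_of_right _ hy)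
    (by
      rw [one_mul, x1, aeval_X]
      have h := pc_unit (rl (adj f (X (Sum.inr c0))) (Fin k))
        (rename Sum.inl (X (Sum.inl b0) : MvPolynomial (β ⊕ γ) R))
      rw [pc_rename, aeval_X] at h
      exact h)
    (sb f b0 c0 k)
    (by
      have hu : IsUnit (pc (adj (ext f b0 c0 k) (w1 R b0 c0 k)) (1 * x1 R γ b0 k)
          (x1 R γ b0 k)) := pc_unit_right _ 1 _
      rintro (_ | i)
      · change aeval _ (rename Sum.inl (X (Sum.inr c0))) = 0
        rw [rename_X, aeval_X]
        have h := pc_rel (adj (ext f b0 c0 k) (w1 R b0 c0 k)) (1 * x1 R γ b0 k) none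
        change pc _ _ (X (Sum.inl (Sum.inl b0)) * X (Sum.inr (Sum.inl c0))) = 0 at h
        rw [map_mul] at h
        exact hu.mul_right_eq_zero.mp h
      · change aeval _ (rename Sum.inl (f i)) = 0
        rw [aeval_rename]
        have h : (sb f b0 c0 k) ∘ Sum.inl = fun s => pv _ _ (ro β γ k s) := rfl
        rw [h, ← pc_rename]
        exact pc_rel (adj (ext f b0 c0 k) (w1 R b0 c0 k)) (1 * x1 R γ b0 k) (some (Sum.inl i)))
    (by
      rw [rename_X, aeval_X]
      exact pc_unit_right (adj (ext f b0 c0 k) (w1 R b0 c0 k)) 1 (x1 R γ b0 k))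
    (by
      have hu : IsUnit (pc (adj (ext f b0 c0 k) (w1 R b0 c0 k)) (1 * x1 R γ b0 k)
          (x1 R γ b0 k)) := pc_unit_right _ 1 _
      rintro ((b | j) | (c | j))
      · exact pcLift_pv _ _ _ _ _ _
      · exact pcLift_pv _ _ _ _ _ _
      · exact pcLift_pv _ _ _ _ _ _
      · change pcLift _ _ _ _ _ (0 : Pc (rl (adj f (X (Sum.inr c0))) (Fin k))
          (rename Sum.inl (X (Sum.inl b0) : MvPolynomial (β ⊕ γ) R))) = _
        rw [map_zero]
        have h := pc_rel (adj (ext f b0 c0 k) (w1 R b0 c0 k)) (1 * x1 R γ b0 k)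
          (some (Sum.inr (Sum.inl j)))
        change pc _ _ (X (Sum.inl (Sum.inl b0)) * X (Sum.inr (Sum.inr j))) = 0 at h
        rw [map_mul] at h
        exact (hu.mul_right_eq_zero.mp h).symm)
    (by
      rintro (s | j)
      · change pcLift _ _ _ _ _ (pv _ _ (ro β γ k s)) = _
        rw [pcLift_pv, sa_ro]
      · exact pcLift_pv _ _ _ _ _ _)

end second

section bilinear

variable [Fintype β] [Fintype γ]

open Classical in
/-- The extended system is bilinear. -/
lemma ext_mem {S : Set R} (h0 : 0 ∈ S) (h1 : 1 ∈ S) (hf : ∀ i, f i ∈ bilIn S β γ)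
    (i : κ ⊕ (Fin k ⊕ Fin k)) : ext f b0 c0 k i ∈ bilIn S (β ⊕ Fin k) (γ ⊕ Fin k) := by
  rcases i with i | j | j
  · obtain ⟨b, hb, hbf⟩ := hf i
    refine ⟨fun u v => Sum.elim (fun u' => Sum.elim (fun v' => b u' v') (fun _ => 0) v)
      (fun _ => 0) u, ?_, ?_⟩
    · rintro (u | u) (v | v)
      · exact hb u v
      · exact h0
      · exact h0
      · exact h0
    · change _ = rename (ro β γ k) (f i)
      rw [← hbf, bil_apply, bil_apply, map_sum, Fintype.sum_sum_type]
      have hz : ∀ j : Fin k, (∑ v : γ ⊕ Fin k, C (Sum.elim (fun u' => Sum.elim (fun v' => b u' v')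
          (fun _ => 0) v) (fun _ => 0) (Sum.inr j : β ⊕ Fin k)) * X (Sum.inl (Sum.inr j)) *
          X (Sum.inr v) : MvPolynomial (Ex β γ k) R) = 0 := by
        intro j
        apply Finset.sum_eq_zero
        intro v _
        rw [Sum.elim_inr, map_zero, zero_mul, zero_mul]
      rw [Finset.sum_eq_zero (fun j _ => hz j), add_zero]
      apply Finset.sum_congr rfl
      intro u _
      rw [map_sum, Fintype.sum_sum_type]
      have hz' : (∑ j : Fin k, C (Sum.elim (fun u' => Sum.elim (fun v' => b u' v')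
          (fun _ => 0) (Sum.inr j : γ ⊕ Fin k)) (fun _ => 0) (Sum.inl u : β ⊕ Fin k)) *
          X (Sum.inl (Sum.inl u)) * X (Sum.inr (Sum.inr j)) : MvPolynomial (Ex β γ k) R) = 0 := by
        apply Finset.sum_eq_zero
        intro j _
        rw [Sum.elim_inl, Sum.elim_inr, map_zero, zero_mul, zero_mul]
      rw [hz', add_zero]
      apply Finset.sum_congr rfl
      intro v _
      rw [map_mul, map_mul, rename_C, rename_X, rename_X, Sum.elim_inl, Sum.elim_inl]
      rfl
  · exact single_mem h0 h1 _ _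
  · exact single_mem h0 h1 _ _

end bilinear

end Pool.Agent.Helper5.WS
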