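import Pool.Agent.Helper5.WS.Emb01
import Mathlib.CategoryTheory.Monoidal.Rigid.Basic

/-!
# Tensor categories generated by the cohomology with compact support
-/

set_option autoImplicit false

open CategoryTheory CategoryTheory.Limits AlgebraicGeometry MonoidalCategory
open Pool.Agent.Y116.UV Pool.Agent.Z125.UN

namespace Pool.Agent.Helper5.WS

universe v u

attribute [local instance] CategoryTheory.Abelian.hasFiniteBiproducts

section gen

variable {C : Type u} [Category.{v} C] [Abelian C] [MonoidalCategory C] [RightRigidCategory C]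

/-- The objects of the smallest full subcategory `⟨S⟩` which contains the objects of the class `S` and
the unit object and is closed under direct sums, tensor products, duals, subobjects and quotients. -/
inductive Gen (S : C → Prop) : C → Prop
  | base (M : C) : S M → Gen S M
  | unit : Gen S (𝟙_ C)
  | sum (A B : C) : Gen S A → Gen S B → Gen S (A ⊞ B)
  | tensor (A B : C) : Gen S A → Gen S B → Gen S (A ⊗ B)
  | dual (A : C) : Gen S A → Gen S Aᘁ
  | sub (A B : C) (f : A ⟶ B) : Mono f → Gen S B → Gen S A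
  | quot (A B : C) (f : A ⟶ B) : Epi f → Gen S A → Gen S B

variable {S S' : C → Prop}

lemma gen_trans (h : ∀ M, S M → Gen S' M) {N : C} (hN : Gen S N) : Gen S' N := by
  induction hN with
  | base M hM => exact h M hM
  | unit => exact Gen.unit
  | sum A B _ _ h1 h2 => exact Gen.sum A B h1 h2
  | tensor A B _ _ h1 h2 => exact Gen.tensor A B h1 h2
  | dual A _ h1 => exact Gen.dual A h1
  | sub A B f hf _ h1 => exact Gen.sub A B f hf h1
  | quot A B f hf _ h1 => exact Gen.quot A B f hf h1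

lemma gen_mono (h : ∀ M, S M → S' M) {N : C} (hN : Gen S N) : Gen S' N :=
  gen_trans (fun M hM => Gen.base M (h M hM)) hN

lemma gen_iso {A B : C} (e : A ≅ B) (h : Gen S A) : Gen S B :=
  Gen.sub B A e.inv inferInstance h

/-- Finitely many objects of the class are enough. -/
lemma gen_fin {V : ℤ → C} {N : C} (hN : Gen (fun M => ∃ j, M = V j) N) :
    ∃ J : Finset ℤ, Gen (fun M => ∃ j ∈ J, M = V j) N := by
  classical
  have hle : ∀ {J J' : Finset ℤ}, J ⊆ J' → ∀ {N : C}, Gen (fun M => ∃ j ∈ J, M = V j) N →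
      Gen (fun M => ∃ j ∈ J', M = V j) N :=
    fun h _ hN => gen_mono (fun M ⟨j, hj, hM⟩ => ⟨j, h hj, hM⟩) hN
  induction hN with
  | base M hM =>
    obtain ⟨j, rfl⟩ := hM
    exact ⟨{j}, Gen.base _ ⟨j, Finset.mem_singleton_self j, rfl⟩⟩
  | unit => exact ⟨∅, Gen.unit⟩
  | sum A B _ _ h1 h2 =>
    obtain ⟨J1, h1⟩ := h1
    obtain ⟨J2, h2⟩ := h2
    exact ⟨J1 ∪ J2, Gen.sum A B (hle Finset.subset_union_left h1)
      (hle Finset.subset_union_right h2)⟩
  | tensor A B _ _ h1 h2 =>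
    obtain ⟨J1, h1⟩ := h1
    obtain ⟨J2, h2⟩ := h2
    exact ⟨J1 ∪ J2, Gen.tensor A B (hle Finset.subset_union_left h1)
      (hle Finset.subset_union_right h2)⟩
  | dual A _ h1 =>
    obtain ⟨J1, h1⟩ := h1
    exact ⟨J1, Gen.dual A h1⟩
  | sub A B f hf _ h1 =>
    obtain ⟨J1, h1⟩ := h1
    exact ⟨J1, Gen.sub A B f hf h1⟩
  | quot A B f hf _ h1 =>
    obtain ⟨J1, h1⟩ := h1
    exact ⟨J1, Gen.quot A B f hf h1⟩

/-- The direct sum of finitely many objects generates them. -/
lemma gen_biproduct {V : ℤ → C} {J J' : Finset ℤ} (h : J ⊆ J') {N : C}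
    (hN : Gen (fun M => ∃ j ∈ J, M = V j) N) :
    Gen (fun M => M = ⨁ fun j : {x // x ∈ J'} => V j.1) N := by
  refine gen_trans ?_ hN
  rintro M ⟨j, hj, rfl⟩
  exact Gen.sub (V j) _ (biproduct.ι (fun j : {x // x ∈ J'} => V j.1) ⟨j, h hj⟩) inferInstance
    (Gen.base _ rfl)

end gen

section twist

variable {C : Type u} [Category.{v} C] [MonoidalCategory C]

/-- The twist of `M` is the tensor product with the twist of the unit object. -/
lemma tw_tensor (L : C) (m : ℕ) : ∀ M : C, Nonempty ((tw (tensorRight L) m).obj M ≅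
    M ⊗ (tw (tensorRight L) m).obj (𝟙_ C)) := by
  induction m with
  | zero =>
    intro M
    exact ⟨(ρ_ M).symm⟩
  | succ m ih =>
    intro M
    obtain ⟨e1⟩ := ih (M ⊗ L)
    obtain ⟨e2⟩ := ih (𝟙_ C ⊗ L)
    let U := (tw (tensorRight L) m).obj (𝟙_ C)
    have e3 : (M ⊗ L) ⊗ U ≅ M ⊗ ((𝟙_ C ⊗ L) ⊗ U) :=
      α_ M L U ≪≫ whiskerLeftIso M (whiskerRightIso (λ_ L).symm U)
    exact ⟨e1 ≪≫ e3 ≪≫ whiskerLeftIso M e2.symm⟩

end twist

section prod

variable {R : Type} [CommRing R] {C : Type u} [Category.{v} C] [Abelian C] {D : CompactThy R C}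
  (hD : IsCompactThy D)

include hD

lemma retract_clopen {A B : Type} [CommRing A] [CommRing B] [Algebra R A] [Algebra R B]
    [Algebra.FiniteType R A] (f : A →ₐ[R] B) (hf : Function.Surjective f) (e : A)
    (he : IsIdempotentElem e) (hk : RingHom.ker f = Ideal.span {e}) (n : ℤ) :
    ∃ (s : D.H n (aff R B) ⟶ D.H n (aff R A)) (r : D.H n (aff R A) ⟶ D.H n (aff R B)),
      s ≫ r = 𝟙 _ :=
  hD.clopen (affMap f) (ft_aff True) (closed_affMap f hf) (open_affMap f hf e he hk) n

variable (A B : Type) [CommRing A] [CommRing B] [Algebra R A] [Algebra R B]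
    [Algebra.FiniteType R A] [Algebra.FiniteType R B]

lemma retract_fst (n : ℤ) : ∃ (s : D.H n (aff R A) ⟶ D.H n (aff R (A × B)))
    (r : D.H n (aff R (A × B)) ⟶ D.H n (aff R A)), s ≫ r = 𝟙 _ := by
  refine retract_clopen hD (AlgHom.fst R A B) Prod.fst_surjective (0, 1) ?_ ?_ n
  · ext <;> simp
  · ext ⟨a, b⟩
    rw [Ideal.mem_span_singleton]
    constructor
    · intro h
      have h1 : a = 0 := h
      exact ⟨(0, b), by ext <;> simp [h1]⟩
    · rintro ⟨⟨c, d⟩, h⟩
      have h1 := congrArg Prod.fst h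
      simpa using h1

lemma retract_snd (n : ℤ) : ∃ (s : D.H n (aff R B) ⟶ D.H n (aff R (A × B)))
    (r : D.H n (aff R (A × B)) ⟶ D.H n (aff R B)), s ≫ r = 𝟙 _ := by
  refine retract_clopen hD (AlgHom.snd R A B) Prod.snd_surjective (1, 0) ?_ ?_ n
  · ext <;> simp
  · ext ⟨a, b⟩
    rw [Ideal.mem_span_singleton]
    constructor
    · intro h
      have h1 : b = 0 := h
      exact ⟨(a, 0), by ext <;> simp [h1]⟩
    · rintro ⟨⟨c, d⟩, h⟩
      have h1 := congrArg Prod.snd h
      simpa using h1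

end prod

section main

variable {k : Type} [Field k] {C : Type u} [Category.{v} C] [Abelian C] [MonoidalCategory C]
  [RightRigidCategory C]

/-- The theory with the Tate twist `M(-1) = M ⊗ L`. -/
def tensThy (H : ℤ → Sch k → C) (L : C) (Le Ge : ℤ → C → Prop) : CompactThy k C where
  H := H
  T := tensorRight L
  Le := Le
  Ge := Ge

/-- The objects `H j X`, `j ∈ ℤ`. -/
def HSet (H : ℤ → Sch k → C) (X : Sch k) (M : C) : Prop := ∃ j : ℤ, M = H j X

/-- The objects `H j X`, `j ∈ ℤ`, for all affine schemes `X` of finite type. -/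
def AffSet (H : ℤ → Sch k → C) (M : C) : Prop :=
  ∃ (A : Type) (_ : CommRing A) (_ : Algebra k A) (_ : Algebra.FiniteType k A) (j : ℤ),
    M = H j (aff k A)

variable {H : ℤ → Sch k → C} {L : C} {Le Ge : ℤ → C → Prop}
  (hD : IsCompactThy (tensThy H L Le Ge))

include hD

lemma gen_fst (A B : Type) [CommRing A] [CommRing B] [Algebra k A] [Algebra k B]
    [Algebra.FiniteType k A] [Algebra.FiniteType k B] {N : C} (h : Gen (HSet H (aff k A)) N) :
    Gen (HSet H (aff k (A × B))) N := by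
  refine gen_trans ?_ h
  rintro M ⟨j, rfl⟩
  obtain ⟨s, r, hsr⟩ := retract_fst hD A B j
  exact Gen.sub _ (H j (aff k (A × B))) s (SplitMono.mk r hsr).mono (Gen.base _ ⟨j, rfl⟩)

lemma gen_snd (A B : Type) [CommRing A] [CommRing B] [Algebra k A] [Algebra k B]
    [Algebra.FiniteType k A] [Algebra.FiniteType k B] {N : C} (h : Gen (HSet H (aff k B)) N) :
    Gen (HSet H (aff k (A × B))) N := by
  refine gen_trans ?_ h
  rintro M ⟨j, rfl⟩
  obtain ⟨s, r, hsr⟩ := retract_snd hD A B j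
  exact Gen.sub _ (H j (aff k (A × B))) s (SplitMono.mk r hsr).mono (Gen.base _ ⟨j, rfl⟩)

/-- One affine scheme is enough for every object. -/
theorem gen_aff {N : C} (hN : Gen (AffSet H) N) : ∃ (A : Type) (_ : CommRing A) (_ : Algebra k A)
    (_ : Algebra.FiniteType k A), Gen (HSet H (aff k A)) N := by
  induction hN with
  | base M hM =>
    obtain ⟨A, i1, i2, i3, j, rfl⟩ := hM
    exact ⟨A, i1, i2, i3, Gen.base _ ⟨j, rfl⟩⟩
  | unit => exact ⟨k, inferInstance, inferInstance, inferInstance, Gen.unit⟩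
  | sum X Y _ _ h1 h2 =>
    obtain ⟨A, _, _, _, h1⟩ := h1
    obtain ⟨B, _, _, _, h2⟩ := h2
    exact ⟨A × B, inferInstance, inferInstance, inferInstance,
      Gen.sum X Y (gen_fst hD A B h1) (gen_snd hD A B h2)⟩
  | tensor X Y _ _ h1 h2 =>
    obtain ⟨A, _, _, _, h1⟩ := h1
    obtain ⟨B, _, _, _, h2⟩ := h2
    exact ⟨A × B, inferInstance, inferInstance, inferInstance,
      Gen.tensor X Y (gen_fst hD A B h1) (gen_snd hD A B h2)⟩
  | dual X _ h1 =>
    obtain ⟨A, i1, i2, i3, h1⟩ := h1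
    exact ⟨A, i1, i2, i3, Gen.dual X h1⟩
  | sub X Y f hf _ h1 =>
    obtain ⟨A, i1, i2, i3, h1⟩ := h1
    exact ⟨A, i1, i2, i3, Gen.sub X Y f hf h1⟩
  | quot X Y f hf _ h1 =>
    obtain ⟨A, i1, i2, i3, h1⟩ := h1
    exact ⟨A, i1, i2, i3, Gen.quot X Y f hf h1⟩

/-- One affine scheme is enough for finitely many objects. -/
theorem gen_aff_list (l : List C) (hl : ∀ N ∈ l, Gen (AffSet H) N) :
    ∃ (A : Type) (_ : CommRing A) (_ : Algebra k A) (_ : Algebra.FiniteType k A),
      ∀ N ∈ l, Gen (HSet H (aff k A)) N := by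
  induction l with
  | nil => exact ⟨k, inferInstance, inferInstance, inferInstance, fun N hN => by simp at hN⟩
  | cons M l ih =>
    obtain ⟨A, _, _, _, h1⟩ := gen_aff hD (hl M List.mem_cons_self)
    obtain ⟨B, _, _, _, h2⟩ := ih fun N hN => hl N (List.mem_cons_of_mem M hN)
    refine ⟨A × B, inferInstance, inferInstance, inferInstance, fun N hN => ?_⟩
    rcases List.mem_cons.mp hN with rfl | hN
    · exact gen_fst hD A B h1
    · exact gen_snd hD A B (h2 N hN)

variable (hW : IsWt (tensThy H L Le Ge)) (h0 : Nonempty (H 0 (aff k k) ≅ 𝟙_ C))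
  (hinv : ∀ m : ℕ, Nonempty ((tw (tensorRight L) m).obj (𝟙_ C) ⊗
    ((tw (tensorRight L) m).obj (𝟙_ C))ᘁ ≅ 𝟙_ C))

include hW h0 hinv

/-- The cohomology of an affine scheme belongs to the tensor category generated by the cohomology of
the hypersurface of a set of triples. -/
theorem gen_trip {F : Type} [Field F] [Algebra F k] [Algebra.IsSeparable F k]
    (hF : Presents ({0, 1} : Set F)) (A : Type) [CommRing A] [Algebra k A]
    [Algebra.FiniteType k A] :
    ∃ (a b c : ℕ) (E : Finset (Fin a × Fin b × Fin c)),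
      ∀ j, Gen (HSet H (tripS k E)) (H j (aff k A)) := by
  obtain ⟨a, b, m, E, hE⟩ := embed_trip hW hD hF (A × k)
  refine ⟨_, _, _, E, ?_⟩
  have h1 : ∀ j, Gen (HSet H (tripS k E))
      ((tw (tensorRight L) m).obj (H j (aff k (A × k)))) := by
    intro j
    obtain ⟨g, hg⟩ := hE j
    exact Gen.sub _ _ g hg (Gen.base _ ⟨_, rfl⟩)
  have hsub : ∀ {X Y : C} (s : X ⟶ Y) (r : Y ⟶ X), s ≫ r = 𝟙 X →
      Gen (HSet H (tripS k E)) ((tw (tensorRight L) m).obj Y) →
      Gen (HSet H (tripS k E)) ((tw (tensorRight L) m).obj X) := by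
    intro X Y s r hsr h
    have h2 : (tw (tensorRight L) m).map s ≫ (tw (tensorRight L) m).map r = 𝟙 _ := by
      rw [← Functor.map_comp, hsr, CategoryTheory.Functor.map_id]
    exact Gen.sub _ _ ((tw (tensorRight L) m).map s) (SplitMono.mk _ h2).mono h
  have hU : Gen (HSet H (tripS k E)) ((tw (tensorRight L) m).obj (𝟙_ C)) := by
    obtain ⟨s, r, hsr⟩ := retract_snd hD A k 0
    obtain ⟨e⟩ := h0
    exact gen_iso ((tw (tensorRight L) m).mapIso e) (hsub s r hsr (h1 0))
  intro j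
  obtain ⟨s, r, hsr⟩ := retract_fst hD A k j
  have h2 := hsub s r hsr (h1 j)
  obtain ⟨e1⟩ := tw_tensor L m (H j (aff k A))
  obtain ⟨e2⟩ := hinv m
  let U := (tw (tensorRight L) m).obj (𝟙_ C)
  have h3 : Gen (HSet H (tripS k E)) ((H j (aff k A) ⊗ U) ⊗ Uᘁ) :=
    Gen.tensor _ _ (gen_iso e1 h2) (Gen.dual _ hU)
  exact gen_iso (α_ _ _ _ ≪≫ whiskerLeftIso _ e2 ≪≫ ρ_ _) h3

/-- Finitely many objects belong to the tensor category generated by the cohomology of one
hypersurface. -/
theorem gen_trip_list {F : Type} [Field F] [Algebra F k] [Algebra.IsSeparable F k]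
    (hF : Presents ({0, 1} : Set F)) (l : List C) (hl : ∀ N ∈ l, Gen (AffSet H) N) :
    ∃ (a b c : ℕ) (E : Finset (Fin a × Fin b × Fin c)),
      ∀ N ∈ l, Gen (HSet H (tripS k E)) N := by
  obtain ⟨A, _, _, _, hA⟩ := gen_aff_list hD l hl
  obtain ⟨a, b, c, E, hE⟩ := gen_trip hD hW h0 hinv hF A
  refine ⟨a, b, c, E, fun N hN => gen_trans ?_ (hA N hN)⟩
  rintro M ⟨j, rfl⟩
  exact hE j

/-- The same with the direct sum of all cohomology groups. -/
theorem gen_total {F : Type} [Field F] [Algebra F k] [Algebra.IsSeparable F k]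
    (hF : Presents ({0, 1} : Set F)) (hneg : ∀ X : Sch k, FT True X → ∀ i < 0, IsZero (H i X))
    (l : List C) (hl : ∀ N ∈ l, Gen (AffSet H) N) :
    ∃ (a b c : ℕ) (E : Finset (Fin a × Fin b × Fin c)) (J : Finset ℤ),
      (∀ j ∉ J, IsZero (H j (tripS k E))) ∧
      ∀ N ∈ l, Gen (fun M => M = ⨁ fun j : {x // x ∈ J} => H j.1 (tripS k E)) N := by
  classical
  obtain ⟨a, b, c, E, hE⟩ := gen_trip_list hD hW h0 hinv hF l hl
  have hfin : ∀ l' : List C, (∀ N ∈ l', Gen (HSet H (tripS k E)) N) →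
      ∃ J : Finset ℤ, ∀ N ∈ l', Gen (fun M => ∃ j ∈ J, M = H j (tripS k E)) N := by
    intro l'
    induction l' with
    | nil => intro _; exact ⟨∅, fun N hN => by simp at hN⟩
    | cons M l' ih =>
      intro h
      obtain ⟨J1, h1⟩ := gen_fin (V := fun j => H j (tripS k E)) (h M List.mem_cons_self)
      obtain ⟨J2, h2⟩ := ih fun N hN => h N (List.mem_cons_of_mem M hN)
      refine ⟨J1 ∪ J2, fun N hN => ?_⟩
      rcases List.mem_cons.mp hN with rfl | hN
      · exact gen_mono (fun M ⟨j, hj, hM⟩ => ⟨j, Finset.mem_union_left _ hj, hM⟩) h1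
      · exact gen_mono (fun M ⟨j, hj, hM⟩ => ⟨j, Finset.mem_union_right _ hj, hM⟩) (h2 N hN)
  obtain ⟨J, hJ⟩ := hfin l hE
  obtain ⟨n, hn⟩ := hD.bounded (tripS k E) (ft_aff True)
  refine ⟨a, b, c, E, J ∪ Finset.Icc 0 n, ?_, fun N hN => ?_⟩
  · intro j hj
    rw [Finset.mem_union, Finset.mem_Icc, not_or, not_and_or] at hj
    rcases hj.2 with h | h
    · exact hneg _ (ft_aff True) j (not_le.mp h)
    · exact (hn j).2 (not_le.mp h)
  · exact gen_biproduct (V := fun j => H j (tripS k E)) Finset.subset_union_left (hJ N hN)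

end main

end Pool.Agent.Helper5.WS
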